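import Pool.Agent.MP_797bdc_co.Lk.P.PASM2

/-! Checker P, assembly: the ranks of the blocks and the final theorem. -/

namespace Pool.Agent.MP_797bdc_co.Lk.P

open Finset

namespace PA1

variable {n : ℕ} {G : Finset (Finset ℕ)} {Z : Zn} {tG : BT} {NX : ℕ} {SM SD : ℕ → ℕ → ℕ}
  {HR : Finset ℕ → ℕ → ℕ → Prop}

theorem mem3 {a b x a' b' x' : ℕ} (e : ({a, b, x} : Finset ℕ) = {a', b', x'}) (t : ℕ) :
    (t = a ∨ t = b ∨ t = x) ↔ (t = a' ∨ t = b' ∨ t = x') := by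
  simpa only [mem_insert, mem_singleton] using Finset.ext_iff.1 e t

theorem sw {a b c : ℕ} (h : ({a, b, c} : Finset ℕ) ∈ G) : ({b, a, c} : Finset ℕ) ∈ G := by
  rw [insert_comm]; exact h

theorem nofirst {a b x a' b' x' y' : ℕ} (e : ({a, b, x} : Finset ℕ) = {a', b', x'})
    (h1 : a' ≠ b') (h2 : x' ≠ a') (h3 : x' ≠ b') (hx : x' ≠ x)
    (f1 : ({a', x', y'} : Finset ℕ) ∈ G) (f2 : ({b', x', y'} : Finset ℕ) ∈ G)
    (h : ({a, b, y'} : Finset ℕ) ∈ G →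
      ({a, x, y'} : Finset ℕ) ∉ G ∧ ({b, x, y'} : Finset ℕ) ∉ G) : False := by
  have m1 := (mem3 e a').2 (.inl rfl)
  have m2 := (mem3 e b').2 (.inr (.inl rfl))
  have m3 := (mem3 e x').2 (.inr (.inr rfl))
  rcases m3 with rfl | rfl | rfl
  · rcases m1 with rfl | rfl | rfl <;> rcases m2 with rfl | rfl | rfl <;>
      first
      | exact absurd rfl h1
      | exact absurd rfl h2
      | exact absurd rfl h3
      | exact (h (sw f1)).1 (sw f2)
      | exact (h (sw f2)).1 (sw f1)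
  · rcases m1 with rfl | rfl | rfl <;> rcases m2 with rfl | rfl | rfl <;>
      first
      | exact absurd rfl h1
      | exact absurd rfl h2
      | exact absurd rfl h3
      | exact (h f1).2 (sw f2)
      | exact (h f2).2 (sw f1)
  · exact hx rfl

/-- The role of the token `a b x` in a gate `a b x y` of the entry `v t r`. -/
structure Ro (n : ℕ) (G : Finset (Finset ℕ)) (Z : Zn) (tG : BT)
    (es : ℕ → ℕ → ℕ → ℕ → ℕ → Prop) (a b x y v t r : ℕ) : Prop where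
  ab : a < b
  bn : b < n
  xn : x < n
  yn : y < n
  xa : x ≠ a
  xb : x ≠ b
  f1 : ({a, x, y} : Finset ℕ) ∈ G
  f2 : ({b, x, y} : Finset ℕ) ∈ G
  e : es a b v t r
  vd : VD Z tG a b v x

theorem core {es : ℕ → ℕ → ℕ → ℕ → ℕ → Prop}
    (hH : ∀ s h g h' g', HR s h g → HR s h' g' → h = h' ∧ g = g')
    (hP : ∀ a b, a < b → b < n → PairS n G Z tG NX SM SD HR a b (es a b))
    {a b x y v t r a' b' x' y' v' t' r' : ℕ} (p : Ro n G Z tG es a b x y v t r)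
    (p' : Ro n G Z tG es a' b' x' y' v' t' r') (e : ({a, b, x} : Finset ℕ) = {a', b', x'})
    (hv : ¬ (a = a' ∧ b = b' ∧ v = v' ∧ t = t' ∧ r = r'))
    (hw : ¬ (v % 4 = 2 ∧ v = v' ∧ r = r')) (hx : x ≠ t) : r < r' := by
  have P := hP a b p.ab p.bn
  have P' := hP a' b' p'.ab p'.bn
  by_cases hxx : x = x'
  · subst hxx
    have m1 := ((mem3 e a).1 (.inl rfl)).imp_right (·.resolve_right p.xa.symm)
    have m2 := ((mem3 e b).1 (.inr (.inl rfl))).imp_right (·.resolve_right p.xb.symm)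
    have l1 := p.ab
    have l2 := p'.ab
    obtain ⟨rfl, rfl⟩ : a = a' ∧ b = b' := by omega
    rcases P.ord _ _ _ _ _ _ p.e p'.e with h | h | h
    · exact absurd ⟨rfl, rfl, h⟩ hv
    · exact h.1
    · exact absurd (h.2 x p.vd p'.vd) hx
  rcases P.lk _ _ _ p.e x p.xn p.xa p.xb p.vd with h | ⟨v0, t0, r0, e0, d0, m0, h, g, H, -, k⟩
  · exact (nofirst e p'.ab.ne p'.xa p'.xb (Ne.symm hxx) p'.f1 p'.f2 (h y' p'.yn)).elim
  rcases P'.lk _ _ _ p'.e x' p'.xn p'.xa p'.xb p'.vd with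
    h | ⟨v1, t1, r1, e1, d1, m1, h', g', H', k0, k1⟩
  · exact (nofirst e.symm p.ab.ne p.xa p.xb hxx p.f1 p.f2 (h y p.yn)).elim
  obtain ⟨rfl, rfl, rfl⟩ : v = v0 ∧ t = t0 ∧ r = r0 := by
    rcases P.ord _ _ _ _ _ _ p.e e0 with h | h | h
    · exact h
    · exact absurd (m0 _ _ _ p.e p.vd) (not_le.2 h.1)
    · exact absurd (h.2 x p.vd d0) hx
  obtain ⟨rfl, hg⟩ := k hx
  obtain ⟨rfl, rfl⟩ := hH _ _ _ _ _ H (e ▸ H')
  have l := m1 _ _ _ p'.e p'.vd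
  by_cases c : x' = t1
  · exact (k0 c).trans_le l
  obtain ⟨rfl, hg'⟩ := k1 c
  have s1 := P.sm _ _ _ p.e
  have s2 := P'.sm _ _ _ e1
  refine lt_of_le_of_ne l fun c' => ?_
  rw [hg'] at hg
  split_ifs at hg with c1 c2 c2
  · rcases P'.ord _ _ _ _ _ _ e1 p'.e with h | h | h
    · exact hw ⟨c2, by omega, c'⟩
    · exact h.1.ne c'
    · exact h.1.ne' c'
  all_goals omega

noncomputable def top (tG : BT) (B : ℕ × ℕ × ℕ × ℕ × ℕ) : Finset ℕ :=
  if B.2.2.1 % 4 = 2 then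
    {xt0 (tG.get (B.2.2.1 / 4)), xt1 (tG.get (B.2.2.1 / 4)), xt2 (tG.get (B.2.2.1 / 4))}
  else {B.1, B.2.1, B.2.2.2.1}

variable {es : ℕ → ℕ → ℕ → ℕ → ℕ → Prop}

theorem role {q : Finset (Finset ℕ)} {B : ℕ × ℕ × ℕ × ℕ × ℕ} (h : BR n G Z tG es q B)
    {s : Finset ℕ} (hs : s ∈ q) (hG : s ∉ G) : ∃ a b x y v t r, Ro n G Z tG es a b x y v t r ∧
      s = {a, b, x} ∧ B = val a b v t r := by
  obtain ⟨a, -, b, hb, c, hc, d, hd, v, t, r, h1, h2, h3, h4, h5, h6, rfl, f1, f2, -, -, e, ed,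
    rfl⟩ := h
  rcases (gnf_mem h1.ne h3 h4 h5 h6 h2.ne s).1 hs with rfl | rfl | rfl | rfl
  · exact ⟨a, b, c, d, v, t, r, ⟨h1, hb, hc, hd, h3.symm, h5.symm, f1, f2, e, ed.vd.1⟩, rfl, rfl⟩
  · exact ⟨a, b, d, c, v, t, r, ⟨h1, hb, hd, hc, h4.symm, h6.symm, pair_comm c d ▸ f1,
      pair_comm c d ▸ f2, e, ed.vd.2⟩, rfl, rfl⟩
  · exact absurd f1 hG
  · exact absurd f2 hG

theorem rank (hH : ∀ s h g h' g', HR s h g → HR s h' g' → h = h' ∧ g = g')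
    (hP : ∀ a b, a < b → b < n → PairS n G Z tG NX SM SD HR a b (es a b))
    {q q' : Finset (Finset ℕ)} {B B' : ℕ × ℕ × ℕ × ℕ × ℕ} (h : BR n G Z tG es q B)
    (h' : BR n G Z tG es q' B') {s : Finset ℕ} (hs : s ∈ q) (hs' : s ∈ q') (hG : s ∉ G)
    (hB : B ≠ B') (ht : s ≠ top tG B) : B.2.2.2.2 < B'.2.2.2.2 := by
  obtain ⟨a, b, x, y, v, t, r, p, rfl, rfl⟩ := role h hs hG
  obtain ⟨a', b', x', y', v', t', r', p', e, rfl⟩ := role h' hs' hG
  have k : ∀ a b v t r, (val a b v t r).2.2.2.2 = r := fun a b v t r => by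
    unfold val; split_ifs <;> rfl
  rw [k, k]
  refine core hH hP p p' e ?_ ?_ ?_
  · rintro ⟨rfl, rfl, rfl, rfl, rfl⟩; exact hB rfl
  · rintro ⟨c, rfl, rfl⟩; exact hB (by simp only [val, if_pos c])
  · rintro rfl
    by_cases c : v % 4 = 2
    · exact ht (by simpa only [val, top, if_pos c] using
        ((hP a b p.ab p.bn).xf _ _ _ p.e c).2.2 p.vd)
    · exact ht (by simp only [val, top, if_neg c])

end PA1

theorem pasm (hz : ZB2_s) : PASM_s := by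
  intro Z n hd root par G Sig u τ1 τ2 h1 h2 hb hZ hS tG NX SM SD HR hH hP XS hX
  choose! es hP using hP
  choose! blk hblk using exists_BR (hd := hd) hb.GΩ hP
  exact rankW _ _ _ G _ _ blk (·.2.2.2.2) (PA1.top tG)
    (fun q q' g g' s hs hs' hG hB ht => PA1.rank hH hP (hblk q g) (hblk q' g') hs hs' hG hB ht)
    (pasm2 hz hb hZ hS hP hX blk hblk)

end Pool.Agent.MP_797bdc_co.Lk.P
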