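import Pool.Agent.MP_797bdc_co.Lk.P.DT
import Pool.Agent.MP_797bdc_co.Lk.DG
import Pool.Agent.MP_797bdc_co.Lk.SM
import Pool.Agent.MP_797bdc_co.Lk.SD

set_option maxRecDepth 100000
set_option linter.defProp false

namespace Pool.Agent.MP_797bdc_co.Lk.P

noncomputable def ut : utOK (nat_lit 321) = true := by decide +kernel
noncomputable def rmo : rmOK (nat_lit 120) Da.tZ tR = true := by decide +kernel
noncomputable def fmo : mOK (nat_lit 321) fM Da.tM = true := by decide +kernel
noncomputable def t0 : ttOK fT [nat_lit 2702] (nat_lit 0) (nat_lit 1) = true := by decide +kernel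
noncomputable def t1 : ttOK fT [nat_lit 2520] (nat_lit 1) (nat_lit 2) = true := by decide +kernel
noncomputable def t2 : ttOK fT [nat_lit 2978] (nat_lit 2) (nat_lit 3) = true := by decide +kernel
noncomputable def t3 : ttOK fT [nat_lit 3138] (nat_lit 3) (nat_lit 4) = true := by decide +kernel
noncomputable def t4 : ttOK fT [nat_lit 2513] (nat_lit 4) (nat_lit 5) = true := by decide +kernel
noncomputable def t5 : ttOK fT [nat_lit 2364] (nat_lit 5) (nat_lit 6) = true := by decide +kernel
noncomputable def t6 : ttOK fT [nat_lit 2710] (nat_lit 6) (nat_lit 7) = true := by decide +kernel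
noncomputable def t7 : ttOK fT [nat_lit 2696] (nat_lit 7) (nat_lit 8) = true := by decide +kernel
noncomputable def t8 : ttOK fT [nat_lit 2344] (nat_lit 8) (nat_lit 9) = true := by decide +kernel
noncomputable def t9 : ttOK fT [nat_lit 2900] (nat_lit 9) (nat_lit 10) = true := by decide +kernel
noncomputable def t10 : ttOK fT [nat_lit 2766] (nat_lit 10) (nat_lit 11) = true := by decide +kernel
noncomputable def t11 : ttOK fT [nat_lit 2187] (nat_lit 11) (nat_lit 12) = true := by decide +kernel
noncomputable def t12 : ttOK fT [nat_lit 2205] (nat_lit 12) (nat_lit 13) = true := by decide +kernel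
noncomputable def t13 : ttOK fT [nat_lit 2790] (nat_lit 13) (nat_lit 14) = true := by decide +kernel
noncomputable def t14 : ttOK fT [nat_lit 2854] (nat_lit 14) (nat_lit 15) = true := by decide +kernel
noncomputable def t15 : ttOK fT [nat_lit 2318] (nat_lit 15) (nat_lit 16) = true := by decide +kernel
noncomputable def t16 : ttOK fT [nat_lit 2245] (nat_lit 16) (nat_lit 17) = true := by decide +kernel
noncomputable def t17 : ttOK fT [nat_lit 3035] (nat_lit 17) (nat_lit 18) = true := by decide +kernel
noncomputable def t18 : ttOK fT [nat_lit 2491] (nat_lit 18) (nat_lit 19) = true := by decide +kernel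
noncomputable def t19 : ttOK fT [nat_lit 2575] (nat_lit 19) (nat_lit 20) = true := by decide +kernel
noncomputable def t20 : ttOK fT [nat_lit 2159] (nat_lit 20) (nat_lit 21) = true := by decide +kernel
noncomputable def t21 : ttOK fT [nat_lit 2066] (nat_lit 21) (nat_lit 22) = true := by decide +kernel
noncomputable def t22 : ttOK fT [nat_lit 2758] (nat_lit 22) (nat_lit 23) = true := by decide +kernel
noncomputable def t23 : ttOK fT [nat_lit 2568] (nat_lit 23) (nat_lit 24) = true := by decide +kernel
noncomputable def t24 : ttOK fT [nat_lit 2516] (nat_lit 24) (nat_lit 25) = true := by decide +kernel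
noncomputable def t25 : ttOK fT [nat_lit 2035] (nat_lit 25) (nat_lit 26) = true := by decide +kernel
noncomputable def t26 : ttOK fT [nat_lit 2752] (nat_lit 26) (nat_lit 27) = true := by decide +kernel
noncomputable def t27 : ttOK fT [nat_lit 2912] (nat_lit 27) (nat_lit 28) = true := by decide +kernel
noncomputable def t28 : ttOK fT [nat_lit 2046] (nat_lit 28) (nat_lit 29) = true := by decide +kernel
noncomputable def t29 : ttOK fT [nat_lit 2050] (nat_lit 29) (nat_lit 30) = true := by decide +kernel
noncomputable def t30 : ttOK fT [nat_lit 2333] (nat_lit 30) (nat_lit 31) = true := by decide +kernel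
noncomputable def t31 : ttOK fT [nat_lit 2098] (nat_lit 31) (nat_lit 32) = true := by decide +kernel
noncomputable def t32 : ttOK fT [nat_lit 2305] (nat_lit 32) (nat_lit 33) = true := by decide +kernel
noncomputable def t33 : ttOK fT [nat_lit 2109] (nat_lit 33) (nat_lit 34) = true := by decide +kernel
noncomputable def t34 : ttOK fT [nat_lit 2255] (nat_lit 34) (nat_lit 35) = true := by decide +kernel
noncomputable def t35 : ttOK fT [nat_lit 2363] (nat_lit 35) (nat_lit 36) = true := by decide +kernel
noncomputable def t36 : ttOK fT [nat_lit 1996] (nat_lit 36) (nat_lit 37) = true := by decide +kernel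
noncomputable def t37 : ttOK fT [nat_lit 2288] (nat_lit 37) (nat_lit 38) = true := by decide +kernel
noncomputable def t38 : ttOK fT [nat_lit 2018] (nat_lit 38) (nat_lit 39) = true := by decide +kernel
noncomputable def t39 : ttOK fT [nat_lit 1773] (nat_lit 39) (nat_lit 40) = true := by decide +kernel
noncomputable def t40 : ttOK fT [nat_lit 2341] (nat_lit 40) (nat_lit 41) = true := by decide +kernel
noncomputable def t41 : ttOK fT [nat_lit 2178] (nat_lit 41) (nat_lit 42) = true := by decide +kernel
noncomputable def t42 : ttOK fT [nat_lit 1731] (nat_lit 42) (nat_lit 43) = true := by decide +kernel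
noncomputable def t43 : ttOK fT [nat_lit 2181] (nat_lit 43) (nat_lit 44) = true := by decide +kernel
noncomputable def t44 : ttOK fT [nat_lit 1547] (nat_lit 44) (nat_lit 45) = true := by decide +kernel
noncomputable def t45 : ttOK fT [nat_lit 1708] (nat_lit 45) (nat_lit 46) = true := by decide +kernel
noncomputable def t46 : ttOK fT [nat_lit 2102] (nat_lit 46) (nat_lit 47) = true := by decide +kernel
noncomputable def t47 : ttOK fT [nat_lit 2123] (nat_lit 47) (nat_lit 48) = true := by decide +kernel
noncomputable def t48 : ttOK fT [nat_lit 2028] (nat_lit 48) (nat_lit 49) = true := by decide +kernel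
noncomputable def t49 : ttOK fT [nat_lit 2052] (nat_lit 49) (nat_lit 50) = true := by decide +kernel
noncomputable def t50 : ttOK fT [nat_lit 2180] (nat_lit 50) (nat_lit 51) = true := by decide +kernel
noncomputable def t51 : ttOK fT [nat_lit 1919] (nat_lit 51) (nat_lit 52) = true := by decide +kernel
noncomputable def t52 : ttOK fT [nat_lit 2031] (nat_lit 52) (nat_lit 53) = true := by decide +kernel
noncomputable def t53 : ttOK fT [nat_lit 2147] (nat_lit 53) (nat_lit 54) = true := by decide +kernel
noncomputable def t54 : ttOK fT [nat_lit 1746] (nat_lit 54) (nat_lit 55) = true := by decide +kernel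
noncomputable def t55 : ttOK fT [nat_lit 1677] (nat_lit 55) (nat_lit 56) = true := by decide +kernel
noncomputable def t56 : ttOK fT [nat_lit 1961] (nat_lit 56) (nat_lit 57) = true := by decide +kernel
noncomputable def t57 : ttOK fT [nat_lit 1800] (nat_lit 57) (nat_lit 58) = true := by decide +kernel
noncomputable def t58 : ttOK fT [nat_lit 1790] (nat_lit 58) (nat_lit 59) = true := by decide +kernel
noncomputable def t59 : ttOK fT [nat_lit 1757] (nat_lit 59) (nat_lit 60) = true := by decide +kernel
noncomputable def t60 : ttOK fT [nat_lit 1911] (nat_lit 60) (nat_lit 61) = true := by decide +kernel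
noncomputable def t61 : ttOK fT [nat_lit 1851] (nat_lit 61) (nat_lit 62) = true := by decide +kernel
noncomputable def t62 : ttOK fT [nat_lit 1231] (nat_lit 62) (nat_lit 63) = true := by decide +kernel
noncomputable def t63 : ttOK fT [nat_lit 1721] (nat_lit 63) (nat_lit 64) = true := by decide +kernel
noncomputable def t64 : ttOK fT [nat_lit 1695] (nat_lit 64) (nat_lit 65) = true := by decide +kernel
noncomputable def t65 : ttOK fT [nat_lit 1361] (nat_lit 65) (nat_lit 66) = true := by decide +kernel
noncomputable def t66 : ttOK fT [nat_lit 1721] (nat_lit 66) (nat_lit 67) = true := by decide +kernel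
noncomputable def t67 : ttOK fT [nat_lit 1612] (nat_lit 67) (nat_lit 68) = true := by decide +kernel
noncomputable def t68 : ttOK fT [nat_lit 1283] (nat_lit 68) (nat_lit 69) = true := by decide +kernel
noncomputable def t69 : ttOK fT [nat_lit 1576] (nat_lit 69) (nat_lit 70) = true := by decide +kernel
noncomputable def t70 : ttOK fT [nat_lit 1209] (nat_lit 70) (nat_lit 71) = true := by decide +kernel
noncomputable def t71 : ttOK fT [nat_lit 1126, nat_lit 1771] (nat_lit 71) (nat_lit 73) = true := by decide +kernel
noncomputable def t72 : ttOK fT [nat_lit 1416] (nat_lit 73) (nat_lit 74) = true := by decide +kernel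
noncomputable def t73 : ttOK fT [nat_lit 1533] (nat_lit 74) (nat_lit 75) = true := by decide +kernel
noncomputable def t74 : ttOK fT [nat_lit 1614] (nat_lit 75) (nat_lit 76) = true := by decide +kernel
noncomputable def t75 : ttOK fT [nat_lit 1009, nat_lit 1623] (nat_lit 76) (nat_lit 78) = true := by decide +kernel
noncomputable def t76 : ttOK fT [nat_lit 1304] (nat_lit 78) (nat_lit 79) = true := by decide +kernel
noncomputable def t77 : ttOK fT [nat_lit 1380] (nat_lit 79) (nat_lit 80) = true := by decide +kernel
noncomputable def t78 : ttOK fT [nat_lit 641, nat_lit 357, nat_lit 320] (nat_lit 80) (nat_lit 83) = true := by decide +kernel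
noncomputable def t79 : ttOK fT [nat_lit 340, nat_lit 490, nat_lit 466] (nat_lit 83) (nat_lit 86) = true := by decide +kernel
noncomputable def t80 : ttOK fT [nat_lit 486, nat_lit 693, nat_lit 336] (nat_lit 86) (nat_lit 89) = true := by decide +kernel
noncomputable def t81 : ttOK fT [nat_lit 418, nat_lit 355, nat_lit 318, nat_lit 404] (nat_lit 89) (nat_lit 93) = true := by decide +kernel
noncomputable def t82 : ttOK fT [nat_lit 333, nat_lit 567, nat_lit 401] (nat_lit 93) (nat_lit 96) = true := by decide +kernel
noncomputable def t83 : ttOK fT [nat_lit 373, nat_lit 320, nat_lit 346, nat_lit 506] (nat_lit 96) (nat_lit 100) = true := by decide +kernel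
noncomputable def t84 : ttOK fT [nat_lit 509, nat_lit 270, nat_lit 411, nat_lit 342] (nat_lit 100) (nat_lit 104) = true := by decide +kernel
noncomputable def t85 : ttOK fT [nat_lit 359, nat_lit 430, nat_lit 453] (nat_lit 104) (nat_lit 107) = true := by decide +kernel
noncomputable def t86 : ttOK fT [nat_lit 445, nat_lit 308, nat_lit 235, nat_lit 361] (nat_lit 107) (nat_lit 111) = true := by decide +kernel
noncomputable def t87 : ttOK fT [nat_lit 365, nat_lit 327, nat_lit 326, nat_lit 410] (nat_lit 111) (nat_lit 115) = true := by decide +kernel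
noncomputable def t88 : ttOK fT [nat_lit 363, nat_lit 290, nat_lit 308, nat_lit 396] (nat_lit 115) (nat_lit 119) = true := by decide +kernel
noncomputable def t89 : ttOK fT [nat_lit 313, nat_lit 270, nat_lit 311, nat_lit 230, nat_lit 565] (nat_lit 119) (nat_lit 124) = true := by decide +kernel
noncomputable def t90 : ttOK fT [nat_lit 383, nat_lit 352, nat_lit 223, nat_lit 237] (nat_lit 124) (nat_lit 128) = true := by decide +kernel
noncomputable def t91 : ttOK fT [nat_lit 332, nat_lit 408, nat_lit 303, nat_lit 289] (nat_lit 128) (nat_lit 132) = true := by decide +kernel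
noncomputable def t92 : ttOK fT [nat_lit 235, nat_lit 337, nat_lit 215, nat_lit 167, nat_lit 368] (nat_lit 132) (nat_lit 137) = true := by decide +kernel
noncomputable def t93 : ttOK fT [nat_lit 441, nat_lit 268, nat_lit 243, nat_lit 171, nat_lit 274] (nat_lit 137) (nat_lit 142) = true := by decide +kernel
noncomputable def t94 : ttOK fT [nat_lit 375, nat_lit 233, nat_lit 241, nat_lit 240, nat_lit 317] (nat_lit 142) (nat_lit 147) = true := by decide +kernel
noncomputable def t95 : ttOK fT [nat_lit 311, nat_lit 269, nat_lit 164, nat_lit 308, nat_lit 239] (nat_lit 147) (nat_lit 152) = true := by decide +kernel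
noncomputable def t96 : ttOK fT [nat_lit 305, nat_lit 446, nat_lit 180, nat_lit 251, nat_lit 81] (nat_lit 152) (nat_lit 157) = true := by decide +kernel
noncomputable def t97 : ttOK fT [nat_lit 143, nat_lit 328, nat_lit 164, nat_lit 146, nat_lit 251, nat_lit 273] (nat_lit 157) (nat_lit 163) = true := by decide +kernel
noncomputable def t98 : ttOK fT [nat_lit 140, nat_lit 98, nat_lit 196, nat_lit 154, nat_lit 197, nat_lit 222, nat_lit 193] (nat_lit 163) (nat_lit 170) = true := by decide +kernel
noncomputable def t99 : ttOK fT [nat_lit 230, nat_lit 259, nat_lit 160, nat_lit 218, nat_lit 210, nat_lit 235] (nat_lit 170) (nat_lit 176) = true := by decide +kernel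
noncomputable def t100 : ttOK fT [nat_lit 186, nat_lit 169, nat_lit 197, nat_lit 152, nat_lit 178, nat_lit 216, nat_lit 120] (nat_lit 176) (nat_lit 183) = true := by decide +kernel
noncomputable def t101 : ttOK fT [nat_lit 79, nat_lit 171, nat_lit 233, nat_lit 132, nat_lit 150, nat_lit 231, nat_lit 167, nat_lit 162] (nat_lit 183) (nat_lit 191) = true := by decide +kernel
noncomputable def t102 : ttOK fT [nat_lit 86, nat_lit 90, nat_lit 93, nat_lit 71, nat_lit 144, nat_lit 121, nat_lit 146, nat_lit 297, nat_lit 121, nat_lit 131] (nat_lit 191) (nat_lit 201) = true := by decide +kernel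
noncomputable def t103 : ttOK fT [nat_lit 196, nat_lit 177, nat_lit 85, nat_lit 92, nat_lit 99, nat_lit 170, nat_lit 151, nat_lit 110, nat_lit 100] (nat_lit 201) (nat_lit 210) = true := by decide +kernel
noncomputable def t104 : ttOK fT [nat_lit 283, nat_lit 48, nat_lit 86, nat_lit 71, nat_lit 115, nat_lit 113, nat_lit 76, nat_lit 69, nat_lit 36, nat_lit 117, nat_lit 100, nat_lit 57] (nat_lit 210) (nat_lit 222) = true := by decide +kernel
noncomputable def t105 : ttOK fT [nat_lit 81, nat_lit 63, nat_lit 52, nat_lit 56, nat_lit 108, nat_lit 71, nat_lit 72, nat_lit 15, nat_lit 57, nat_lit 52, nat_lit 45, nat_lit 20, nat_lit 64, nat_lit 66, nat_lit 35, nat_lit 46, nat_lit 44, nat_lit 41, nat_lit 85, nat_lit 62, nat_lit 61] (nat_lit 222) (nat_lit 243) = true := by decide +kernel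
noncomputable def t106 : ttOK fT [nat_lit 62, nat_lit 65, nat_lit 74, nat_lit 20, nat_lit 79, nat_lit 20, nat_lit 62, nat_lit 43, nat_lit 51, nat_lit 21, nat_lit 34, nat_lit 97, nat_lit 68, nat_lit 28, nat_lit 33, nat_lit 23, nat_lit 12, nat_lit 52, nat_lit 16, nat_lit 20, nat_lit 35, nat_lit 15, nat_lit 11, nat_lit 63, nat_lit 18, nat_lit 12, nat_lit 27, nat_lit 5, nat_lit 7, nat_lit 6, nat_lit 9, nat_lit 24] (nat_lit 243) (nat_lit 275) = true := by decide +kernel
noncomputable def t107 : ttOK fT [nat_lit 23, nat_lit 31, nat_lit 5, nat_lit 16, nat_lit 15, nat_lit 12, nat_lit 5, nat_lit 33, nat_lit 25, nat_lit 11, nat_lit 7, nat_lit 20, nat_lit 16, nat_lit 5, nat_lit 4, nat_lit 9, nat_lit 2, nat_lit 3, nat_lit 5, nat_lit 5, nat_lit 0, nat_lit 8, nat_lit 5, nat_lit 1, nat_lit 2, nat_lit 0, nat_lit 6, nat_lit 0, nat_lit 3, nat_lit 0, nat_lit 0, nat_lit 2, nat_lit 0, nat_lit 1, nat_lit 5, nat_lit 2, nat_lit 0, nat_lit 3, nat_lit 2, nat_lit 0, nat_lit 0, nat_lit 0, nat_lit 0, nat_lit 0, nat_lit 0, nat_lit 0] (nat_lit 275) (nat_lit 321) = true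 := by decide +kernel
theorem tall : TG fT (nat_lit 0) (nat_lit 321) := tg_join (tg_of t0) (tg_join (tg_of t1) (tg_join (tg_of t2) (tg_join (tg_of t3) (tg_join (tg_of t4) (tg_join (tg_of t5) (tg_join (tg_of t6) (tg_join (tg_of t7) (tg_join (tg_of t8) (tg_join (tg_of t9) (tg_join (tg_of t10) (tg_join (tg_of t11) (tg_join (tg_of t12) (tg_join (tg_of t13) (tg_join (tg_of t14) (tg_join (tg_of t15) (tg_join (tg_of t16) (tg_join (tg_of t17) (tg_join (tg_of t18) (tg_join (tg_of t19) (tg_join (tg_of t20) (tg_join (tg_of t21) (tg_join (tg_of t22) (tg_join (tg_of t23) (tg_join (tg_of t24) (tg_join (tg_of t25) (tg_join (tg_of t26) (tg_join (tg_of t27) (tg_join (tg_of t28) (tg_join (tg_of t29) (tg_join (tg_of t30) (tg_join (tg_of t31) (tg_join (tg_of t32) (tg_join (tg_of t33) (tg_join (tg_of t34) (tg_join (tg_of t35) (tg_join (tg_of t36) (tg_join (tg_of t37) (tg_join (tg_of t38) (tg_join (tg_of t39) (tg_join (tg_of t40) (tg_join (tg_of t41) (tg_join (tg_of t42) (tg_join (tg_of t43) (tg_join (tg_of t44) (tg_join (tg_of t45) (tg_join (tg_of t46) (tg_join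 (tg_of t47) (tg_join (tg_of t48) (tg_join (tg_of t49) (tg_join (tg_of t50) (tg_join (tg_of t51) (tg_join (tg_of t52) (tg_join (tg_of t53) (tg_join (tg_of t54) (tg_join (tg_of t55) (tg_join (tg_of t56) (tg_join (tg_of t57) (tg_join (tg_of t58) (tg_join (tg_of t59) (tg_join (tg_of t60) (tg_join (tg_of t61) (tg_join (tg_of t62) (tg_join (tg_of t63) (tg_join (tg_of t64) (tg_join (tg_of t65) (tg_join (tg_of t66) (tg_join (tg_of t67) (tg_join (tg_of t68) (tg_join (tg_of t69) (tg_join (tg_of t70) (tg_join (tg_of t71) (tg_join (tg_of t72) (tg_join (tg_of t73) (tg_join (tg_of t74) (tg_join (tg_of t75) (tg_join (tg_of t76) (tg_join (tg_of t77) (tg_join (tg_of t78) (tg_join (tg_of t79) (tg_join (tg_of t80) (tg_join (tg_of t81) (tg_join (tg_of t82) (tg_join (tg_of t83) (tg_join (tg_of t84) (tg_join (tg_of t85) (tg_join (tg_of t86) (tg_join (tg_of t87) (tg_join (tg_of t88) (tg_join (tg_of t89) (tg_join (tg_of t90) (tg_join (tg_of t91) (tg_join (tg_of t92) (tg_join (tg_of t93) (tg_join (tg_of t94) (tg_join (tg_of t95) (tg_join (tg_of t96) (tg_join (tg_of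 t97) (tg_join (tg_of t98) (tg_join (tg_of t99) (tg_join (tg_of t100) (tg_join (tg_of t101) (tg_join (tg_of t102) (tg_join (tg_of t103) (tg_join (tg_of t104) (tg_join (tg_of t105) (tg_join (tg_of t106) (tg_of t107)))))))))))))))))))))))))))))))))))))))))))))))))))))))))))))))))))))))))))))))))))))))))))))))))))))))))))

end Pool.Agent.MP_797bdc_co.Lk.P
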