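import Pool.Agent.MP_797bdc_co.Lk.P.R0
import Pool.Agent.MP_797bdc_co.Lk.P.R1
import Pool.Agent.MP_797bdc_co.Lk.P.R2
import Pool.Agent.MP_797bdc_co.Lk.P.R3
import Pool.Agent.MP_797bdc_co.Lk.P.R4
import Pool.Agent.MP_797bdc_co.Lk.P.R5
import Pool.Agent.MP_797bdc_co.Lk.P.R6
import Pool.Agent.MP_797bdc_co.Lk.P.R7
import Pool.Agent.MP_797bdc_co.Lk.P.R8
import Pool.Agent.MP_797bdc_co.Lk.P.R9
import Pool.Agent.MP_797bdc_co.Lk.P.R10
import Pool.Agent.MP_797bdc_co.Lk.P.R11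
import Pool.Agent.MP_797bdc_co.Lk.P.R12
import Pool.Agent.MP_797bdc_co.Lk.P.R13
import Pool.Agent.MP_797bdc_co.Lk.P.R14
import Pool.Agent.MP_797bdc_co.Lk.P.R15
import Pool.Agent.MP_797bdc_co.Lk.P.RT

set_option maxRecDepth 100000
set_option linter.defProp false

namespace Pool.Agent.MP_797bdc_co.Lk.P

theorem rall : RA (nat_lit 321) (nat_lit 120) (nat_lit 21747) Da.tZ tR Da.tG fM fT Da.SM Da.SD (nat_lit 0) (nat_lit 320) := ra_join m0 (ra_join m1 (ra_join m2 (ra_join m3 (ra_join m4 (ra_join m5 (ra_join m6 (ra_join m7 (ra_join m8 (ra_join m9 (ra_join m10 (ra_join m11 (ra_join m12 (ra_join m13 (ra_join m14 (m15)))))))))))))))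

end Pool.Agent.MP_797bdc_co.Lk.P
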