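import Pool.Agent.MP_797bdc_co.Lk.P.PS
import Pool.Agent.MP_797bdc_co.Lk.P.PASM
import Pool.Agent.MP_797bdc_co.Lk.MAT
import Pool.Agent.MP_797bdc_co.Lk.P.RAll

/-! Checker P on the data. -/

namespace Pool.Agent.MP_797bdc_co.Lk.P

theorem pfin (hz : ZB2_s) (hd : DimP Da.n) (hs : SymM Da.n Da.tM.get)
    {root : ℕ} {par : ℕ → ℕ} {Sig : Finset (Finset ℕ)} {u τ1 τ2 : Finset ℕ}
    {h1 h2 : Finset (Finset ℕ)} (hB : Base (sysN Da.n hd) (Gd Da.n Da.tM.get) Sig u τ1 τ2 h1 h2)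
    (hZ : (mkZ Da.n Da.J Da.tZ Da.tF Da.SK).OK Da.n root par (Gd Da.n Da.tM.get))
    (hL : ∀ f ∈ Sig, (mkZ Da.n Da.J Da.tZ Da.tF Da.SK).lab f = 0) :
    POK Da.n hd (Gd Da.n Da.tM.get) (mkZ Da.n Da.J Da.tZ Da.tF Da.SK) Da.tG Da.NX Da.SM Da.SD :=
  pok (pasm hz) mat hd (by decide) hs hB hZ hL ut rmo tall fmo rfl rall

end Pool.Agent.MP_797bdc_co.Lk.P
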