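import Pool.Agent.MP_797bdc_co.Lk.P.PD
import Pool.Agent.MP_797bdc_co.Lk.GNF
import Pool.Agent.MP_797bdc_co.Lk.RANKW

/-! Checker P, assembly: every block has the block property. -/

namespace Pool.Agent.MP_797bdc_co.Lk.P

open Finset

/-- The name of the block of an entry. -/
def val (a b v t r : ℕ) : ℕ × ℕ × ℕ × ℕ × ℕ :=
  if v % 4 = 2 then (0, 0, v, 0, r) else (a, b, v, t, r)

/-- The gate `q` lies in the block with name `B`. -/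
def BR (n : ℕ) (G : Finset (Finset ℕ)) (Z : Zn) (tG : BT) (es : ℕ → ℕ → ℕ → ℕ → ℕ → Prop)
    (q : Finset (Finset ℕ)) (B : ℕ × ℕ × ℕ × ℕ × ℕ) : Prop :=
  ∃ a < n, ∃ b < n, ∃ c < n, ∃ d < n, ∃ v t r, a < b ∧ c < d ∧
    a ≠ c ∧ a ≠ d ∧ b ≠ c ∧ b ≠ d ∧ q = qd a b c d ∧
    ({a, c, d} : Finset ℕ) ∈ G ∧ ({b, c, d} : Finset ℕ) ∈ G ∧
    ({a, b, c} : Finset ℕ) ∉ G ∧ ({a, b, d} : Finset ℕ) ∉ G ∧
    es a b v t r ∧ ED Z tG a b v c d ∧ B = val a b v t r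

theorem ED.vd {Z : Zn} {tG : BT} {a b v c d : ℕ} (h : ED Z tG a b v c d) :
    VD Z tG a b v c ∧ VD Z tG a b v d := by
  rcases h with ⟨h, i, hi, e | e⟩ | ⟨h, i, hi, e1, e2, e3, e4⟩ | ⟨h, e1, e2⟩
  · exact ⟨Or.inl ⟨h, i, hi, e.1⟩, Or.inl ⟨h, _, Nat.mod_lt _ (by norm_num), e.2⟩⟩
  · exact ⟨Or.inl ⟨h, _, Nat.mod_lt _ (by norm_num), e.2⟩, Or.inl ⟨h, i, hi, e.1⟩⟩
  · exact ⟨Or.inr (Or.inl ⟨h, i, hi, e1, e2, Or.inl e3.symm⟩),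
      Or.inr (Or.inl ⟨h, i, hi, e1, e2, Or.inr e4.symm⟩)⟩
  · exact ⟨Or.inr (Or.inr ⟨h, Or.inl e1⟩), Or.inr (Or.inr ⟨h, Or.inr e2⟩)⟩

theorem val_inj {a b v t r a' b' v' t' r' : ℕ} (h : val a b v t r = val a' b' v' t' r') :
    v = v' ∧ r = r' ∧ (v % 4 ≠ 2 → a = a' ∧ b = b' ∧ t = t') := by
  unfold val at h
  split_ifs at h with h1 h2 h2 <;> simp only [Prod.mk.injEq] at h
  · exact ⟨h.2.2.1, h.2.2.2.2, fun c => absurd h1 c⟩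
  · exact ⟨h.2.2.1, h.2.2.2.2, fun c => absurd h1 c⟩
  · exact absurd (h.2.2.1 ▸ h2) h1
  · exact ⟨h.2.2.1, h.2.2.2.2, fun _ => ⟨h.1, h.2.1, h.2.2.2.1⟩⟩

/-- Every gate lies in some block. -/
theorem exists_BR {n : ℕ} {hd : DimP n} {G : Finset (Finset ℕ)} (hG : G ⊆ Om n) {Z : Zn} {tG : BT}
    {NX : ℕ} {SM SD : ℕ → ℕ → ℕ} {HR : Finset ℕ → ℕ → ℕ → Prop}
    {es : ℕ → ℕ → ℕ → ℕ → ℕ → Prop}
    (hes : ∀ a b, a < b → b < n → PairS n G Z tG NX SM SD HR a b (es a b))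
    (q : Finset (Finset ℕ)) (hq : Gate (sysN n hd) G q) : ∃ B, BR n G Z tG es q B := by
  obtain ⟨a, ha, b, hb, c, hc, d, hd', ab, cd, n1, n2, n3, n4, e, g1, g2, g3, g4⟩ :=
    (gnf n hd G hG).1 q hq
  obtain ⟨v, t, r, h1, h2⟩ := (hes a b ab hb).cov c hc d hd' cd g1 g2 g3 g4
  exact ⟨_, a, ha, b, hb, c, hc, d, hd', v, t, r, ab, cd, n1, n2, n3, n4, e, g1, g2, g3, g4, h1,
    h2, rfl⟩

theorem qd_sw1 (a b c d : ℕ) : qd a b c d = qd b a c d := by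
  unfold qd; rw [insert_comm]
theorem qd_sw2 (a b c d : ℕ) : qd a b c d = qd a b d c := by
  unfold qd; rw [pair_comm]

/-- What is known of one gate of a block. -/
theorem BR.facts {n : ℕ} (hd : DimP n) {G : Finset (Finset ℕ)} (hG : G ⊆ Om n) {Z : Zn} {tG : BT}
    {NX : ℕ} {SM SD : ℕ → ℕ → ℕ} {HR : Finset ℕ → ℕ → ℕ → Prop}
    {es : ℕ → ℕ → ℕ → ℕ → ℕ → Prop}
    (hes : ∀ a b, a < b → b < n → PairS n G Z tG NX SM SD HR a b (es a b))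
    (XS : ℕ → Finset ℕ → Prop) {q : Finset (Finset ℕ)} {B : ℕ × ℕ × ℕ × ℕ × ℕ}
    (h : BR n G Z tG es q B) : ∃ a b c d v t r, a < b ∧ b < n ∧ q = qd a b c d ∧ es a b v t r ∧
      ED Z tG a b v c d ∧ B = val a b v t r ∧
      ((∀ c, VD Z tG a b v c → (SM a b).testBit c = false) → ¬ noLocS n G SM q) ∧
      ∀ s, safeS n G Z tG SD XS q s → DS n G Z XS a b v s := by
  obtain ⟨a, ha, b, hb, c, hc, d, hd', v, t, r, ab, cd, n1, n2, n3, n4, e, g1, g2, g3, g4, h1,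
    h2, h3⟩ := h
  have U := (gnf n hd G hG).2.2.1 a b c d
  refine ⟨a, b, c, d, v, t, r, ab, hb, e, h1, h2, h3, ?_, ?_⟩
  · rintro k ⟨a', -, b', -, c', -, d', -, ab', cd', e', f1, f2, f3, f4, m⟩
    obtain ⟨rfl, rfl, w⟩ := U a' b' c' d' ab ab' cd.ne cd' (e.symm.trans e') g1 g2 g3 g4 f1 f2 f3 f4
    have : VD Z tG a b v c' := by
      rcases w with w | w
      · exact w.1 ▸ h2.vd.1
      · exact w.2 ▸ h2.vd.2
    rw [k _ this] at m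
    exact Bool.false_ne_true m
  · rintro s ⟨a', -, b', -, c', -, d', -, ab', cd', e', f1, f2, f3, f4, v', m, k1, k2, k3⟩
    obtain ⟨rfl, rfl, w⟩ := U a' b' c' d' ab ab' cd.ne cd' (e.symm.trans e') g1 g2 g3 g4 f1 f2 f3 f4
    have k : VD Z tG a b v' c ∧ VD Z tG a b v' d := by
      rcases w with w | w
      · exact ⟨w.1 ▸ k1, w.2 ▸ k2⟩
      · exact ⟨w.1 ▸ k2, w.2 ▸ k1⟩
    have v0 : v' % 4 ≠ 0 := by
      rcases k1 with x | x | x <;> have := x.1 <;> omega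
    obtain ⟨t', r', h'⟩ := (hes a b ab hb).sd v' m v0
    rcases (hes a b ab hb).ord v t r v' t' r' h1 h' with x | x | x
    · exact x.1 ▸ k3
    · exact absurd ((x.2 c h2.vd.1 k.1).trans (x.2 d h2.vd.2 k.2).symm) cd.ne
    · exact absurd ((x.2 c h2.vd.1 k.1).trans (x.2 d h2.vd.2 k.2).symm) cd.ne

/-- Part 2 of the assembly. -/
theorem pasm2 (hz : ZB2_s) {Z : Zn} {n : ℕ} {hd : DimP n} {root : ℕ} {par : ℕ → ℕ}
    {G Sig : Finset (Finset ℕ)} {u τ1 τ2 : Finset ℕ} {h1 h2 : Finset (Finset ℕ)}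
    (hB : Base (sysN n hd) G Sig u τ1 τ2 h1 h2) (hZ : Z.OK n root par G)
    (hS : ∀ f ∈ Sig, Z.lab f = 0) {tG : BT} {NX : ℕ} {SM SD : ℕ → ℕ → ℕ}
    {HR : Finset ℕ → ℕ → ℕ → Prop} {es : ℕ → ℕ → ℕ → ℕ → ℕ → Prop}
    (hes : ∀ a b, a < b → b < n → PairS n G Z tG NX SM SD HR a b (es a b))
    {XS : ℕ → Finset ℕ → Prop} (hX : ∀ id < NX, XOK2 n hd G (tG.get id) (XS id))
    (blk : Finset (Finset ℕ) → ℕ × ℕ × ℕ × ℕ × ℕ)
    (hblk : ∀ q, Gate (sysN n hd) G q → BR n G Z tG es q (blk q)) (B : ℕ × ℕ × ℕ × ℕ × ℕ) :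
    BPon2 (sysN n hd) G (noLocS n G SM) (safeS n G Z tG SD XS) (blk · = B) := by
  have hG : G ⊆ Om n := hB.GΩ
  by_cases ex : ∃ q0, Gate (sysN n hd) G q0 ∧ blk q0 = B
  swap
  · exact oneW _ _ _ _ _ _ ∅ fun q g e => absurd ⟨q, g, e⟩ ex
  obtain ⟨q0, g0, e0⟩ := ex
  obtain ⟨a, b, c0, d0, v, t, r, ab, hb, -, s0, E0, B0, -, -⟩ := (hblk q0 g0).facts hd hG hes XS
  rw [e0] at B0
  have P := hes a b ab hb
  have F : ∀ q, Gate (sysN n hd) G q → blk q = B → ∃ a' b' c d t', a' < b' ∧ b' < n ∧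
      q = qd a' b' c d ∧ es a' b' v t' r ∧ ED Z tG a' b' v c d ∧ (v % 4 ≠ 2 → a' = a ∧ b' = b) ∧
      ((∀ c, VD Z tG a' b' v c → (SM a' b').testBit c = false) → ¬ noLocS n G SM q) ∧
      ∀ s, safeS n G Z tG SD XS q s → DS n G Z XS a' b' v s := by
    intro q g e
    obtain ⟨a', b', c, d, v', t', r', x1, x2, x3, x4, x5, x6, x7, x8⟩ :=
      (hblk q g).facts hd hG hes XS
    obtain ⟨rfl, rfl, y⟩ := val_inj (x6.symm.trans (e.trans B0))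
    exact ⟨a', b', c, d, t', x1, x2, x3, x4, x5, fun k => ⟨(y k).1, (y k).2.1⟩, x7, x8⟩
  rcases E0 with ⟨hv, -⟩ | ⟨hv, -⟩ | ⟨hv, -⟩
  · obtain ⟨hj, ⟨p, hp, ep⟩, ⟨p', hp', ep'⟩, nG, nl⟩ := P.zf v t r s0 hv
    have F' : ∀ q, Gate (sysN n hd) G q → blk q = B → ¬ noLocS n G SM q ∧
        (∃ i < 4, q = qd a b (Z.c (v / 4) i) (Z.c (v / 4) ((i + 1) % 4))) ∧
        ∀ s, safeS n G Z tG SD XS q s → DS n G Z XS a b v s := by
      intro q g e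
      obtain ⟨a', b', c, d, t', -, -, x3, -, x5, x6, x7, x8⟩ := F q g e
      obtain ⟨rfl, rfl⟩ := x6 (by omega)
      refine ⟨x7 nl, ?_, x8⟩
      rcases x5 with ⟨-, i, hi, y | y⟩ | ⟨y, -⟩ | ⟨y, -⟩
      · exact ⟨i, hi, by rw [x3, y.1, y.2]⟩
      · exact ⟨i, hi, by rw [x3, y.1, y.2, qd_sw2]⟩
      · omega
      · omega
    rcases lt_trichotomy p p' with l | l | l
    · refine hz Z n hd root par G Sig u τ1 τ2 h1 h2 hB hZ hS _ hj p p' l hp'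
        (by rw [ep, ep']; exact nG) _ _ _ fun q g e => ?_
      obtain ⟨y1, y2, y3⟩ := F' q g e
      exact ⟨y1, by rw [ep, ep']; exact y2,
        fun s k => (y3 s k).1 hv p p' l hp' (Or.inl ⟨ep, ep'⟩)⟩
    · subst l
      omega
    · refine hz Z n hd root par G Sig u τ1 τ2 h1 h2 hB hZ hS _ hj p' p l hp
        (by rw [ep, ep']; intro i hi; rw [insert_comm]; exact nG i hi) _ _ _ fun q g e => ?_
      obtain ⟨y1, ⟨i, hi, y2⟩, y3⟩ := F' q g e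
      exact ⟨y1, ⟨i, hi, by rw [ep, ep', qd_sw1]; exact y2⟩,
        fun s k => (y3 s k).1 hv p' p l hp (Or.inr ⟨ep', ep⟩)⟩
  · refine hX _ (P.xf v t r s0 hv).1 _ _ _ fun q g e => ?_
    obtain ⟨a', b', c, d, t', x1, x2, x3, x4, x5, -, x7, x8⟩ := F q g e
    refine ⟨?_, fun z => ⟨x7 (((hes a' b' x1 x2).xf v t' r x4 hv).2.1 z),
      fun s k => (x8 s k).2 hv⟩⟩
    rcases x5 with ⟨y, -⟩ | ⟨-, i, hi, y1, y2, y3, y4⟩ | ⟨y, -⟩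
    · omega
    · exact ⟨i, hi, by rw [x3, xq, y1, y2, y3, y4]⟩
    · omega
  · refine oneW _ _ _ _ _ _ (qd a b (v / 4 % 512) (v / 4 / 512)) fun q g e => ?_
    obtain ⟨a', b', c, d, t', -, -, x3, -, x5, x6, -, -⟩ := F q g e
    obtain ⟨rfl, rfl⟩ := x6 (by omega)
    rcases x5 with ⟨y, -⟩ | ⟨y, -⟩ | ⟨-, y1, y2⟩
    · omega
    · omega
    · rw [x3, y1, y2]

end Pool.Agent.MP_797bdc_co.Lk.P
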