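import Pool.Agent.MP_797bdc_co.Lk.PrimB

/-! Checker P: cover of all gates by ranked blocks (definitions, no Mathlib). -/

namespace Pool.Agent.MP_797bdc_co.Lk.P

open Nat (add mul sub div land lor xor shiftRight shiftLeft ble beq)

noncomputable section

/-- evaluate `x`, then go on -/
def fn (x : Nat) (f : Nat → Nat) : Nat := Nat.rec (nat_lit 1) (fun k _ => f k) (add x (nat_lit 1))
def pall (n : Nat) : Nat := sub (p2 n) (nat_lit 1)
def pones (n : Nat) : Nat := div (sub (p2 (mul n n)) (nat_lit 1)) (pall n)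
/-- upper triangle -/
def put (n : Nat) : Nat :=
  sub (shiftLeft (pones n) n)
    (shiftLeft (div (sub (p2 (mul (add n (nat_lit 1)) n)) (nat_lit 1)) (pall (add n (nat_lit 1))))
      (nat_lit 1))
def utOK (n : Nat) : Bool :=
  al n fun c => beq (lor (bt (put n) (mul n c) (pall n)) (pall (add c (nat_lit 1)))) (pall n)

/-- word fields: type, payload, top vertex, rank -/
def wy (w : Nat) : Nat := land w (nat_lit 3)
def wp (w : Nat) : Nat := bt w (nat_lit 2) (nat_lit 262143)
def wt (w : Nat) : Nat := bt w (nat_lit 20) (nat_lit 511)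
def wr (w : Nat) : Nat := shiftRight w (nat_lit 29)
def wc (w : Nat) : Nat := bt w (nat_lit 2) (nat_lit 511)
def wd (w : Nat) : Nat := bt w (nat_lit 11) (nat_lit 511)

/-- vertex mask, edge matrix and rim mask of zone `j` -/
def cm (tZ : BT) (j : Nat) : Nat :=
  lor (lor (p2 (zc (tZ.get j) (nat_lit 0))) (p2 (zc (tZ.get j) (nat_lit 1))))
    (lor (p2 (zc (tZ.get j) (nat_lit 2))) (p2 (zc (tZ.get j) (nat_lit 3))))
def e2 (n x y : Nat) : Nat := lor (p2 (add (mul n x) y)) (p2 (add (mul n y) x))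
def cy (n : Nat) (tZ : BT) (j : Nat) : Nat :=
  lor (lor (e2 n (zc (tZ.get j) (nat_lit 0)) (zc (tZ.get j) (nat_lit 1)))
      (e2 n (zc (tZ.get j) (nat_lit 1)) (zc (tZ.get j) (nat_lit 2))))
    (lor (e2 n (zc (tZ.get j) (nat_lit 2)) (zc (tZ.get j) (nat_lit 3)))
      (e2 n (zc (tZ.get j) (nat_lit 3)) (zc (tZ.get j) (nat_lit 0))))
def rm (J : Nat) (tR : BT) (j : Nat) : Nat := cn (lt j J) (tR.get j) (nat_lit 0)
def rimM (z : Nat) : Nat := Nat.rec (nat_lit 0) (fun p ih => lor (p2 (zr z p)) ih) (zl z)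
def rmOK (J : Nat) (tZ tR : BT) : Bool := al J fun j => beq (tR.get j) (rimM (tZ.get j))

def mOK (n : Nat) (M : Nat → Nat) (tM : BT) : Bool := al n fun a => beq (M a) (tM.get a)

/-- vertex mask (low 512 bits) and edge matrix of the gates of record `r` with apex pair `key` -/
def xg1 (n key g ih : Nat) : Nat :=
  cn (beq (shiftRight g (nat_lit 18)) key)
    (lor ih (lor (p2 (add (add (mul n (gc g)) (gd g)) (nat_lit 512))) (lor (p2 (gc g)) (p2 (gd g)))))
    ih
def xc (n key r : Nat) : Nat := Nat.rec (nat_lit 0) (fun i ih => xg1 n key (xg r i) ih) (xk r)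
def xv (n key r : Nat) : Nat := land (xc n key r) (pall (nat_lit 512))
def xm (n key r : Nat) : Nat := shiftRight (xc n key r) (nat_lit 512)

abbrev K6 := Nat → Nat → Nat → Nat → Nat → Nat → Nat

/-- the block meets the earlier ones at most in its top vertex, and the rank goes up -/
def cmn (V w v U : Nat) : Nat :=
  add (xor (lor (land V U) (p2 (wt w))) (p2 (wt w))) (sub (add (wr v) (nat_lit 1)) (wr w))

def sZ (n J : Nat) (tZ tR : BT) (AB S : Nat) (ih : K6) (rest U R E v w : Nat) : Nat :=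
  fn (wp w) fun j =>
    add (add (cmn (cm tZ j) w v U) (add (land (cm tZ j) S) (xor (land AB (rm J tR j)) AB)))
      (ih rest (lor U (cm tZ j)) (xor (lor U (cm tZ j)) U) R (lor E (cy n tZ j)) w)

def sE (n : Nat) (ih : K6) (rest U R E v w : Nat) : Nat :=
  add (cmn (lor (p2 (wc w)) (p2 (wd w))) w v U)
    (ih rest (lor U (lor (p2 (wc w)) (p2 (wd w)))) (xor (lor U (lor (p2 (wc w)) (p2 (wd w)))) U) R
      (lor E (p2 (add (mul n (wc w)) (wd w)))) w)

def sX2 (n NX key AB S : Nat) (ih : K6) (rest U R E v w r : Nat) : Nat :=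
  add (add (cmn (xv n key r) w v U)
      (add (add (sub (add (wp w) (nat_lit 1)) NX) (cn (beq (xnl r) (nat_lit 0)) (land (xv n key r) S) (nat_lit 0)))
        (cn (beq (lor AB (p2 (wt w))) (lor (p2 (xt0 r)) (lor (p2 (xt1 r)) (p2 (xt2 r))))) (nat_lit 0)
          (land (xv n key r) (p2 (wt w))))))
    (ih rest (lor U (xv n key r)) (xor (lor U (xv n key r)) U) R (lor E (xm n key r)) w)
def sX (n NX : Nat) (tG : BT) (key AB S : Nat) (ih : K6) (rest U R E v w : Nat) : Nat :=
  fn (tG.get (wp w)) fun r => sX2 n NX key AB S ih rest U R E v w r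

/-- key of the token `{a, b, c}` inside the table of its least vertex -/
def tk (b m : Nat) : Nat := add (mul (add m b) (nat_lit 512)) (add (sub m b) (sub b m))
def trec (t i : Nat) : Nat := bt t (mul i (nat_lit 48)) (nat_lit 281474976710655)
def lk2 (b c m v x : Nat) : Nat :=
  add (xor (land x (nat_lit 524287)) (tk b m))
    (cn (beq c (wt v)) (sub (add (shiftRight x (nat_lit 38)) (nat_lit 1)) (wr v))
      (xor (shiftRight x (nat_lit 19)) (add (shiftLeft (wr v) (nat_lit 19))
        (cn (beq (wy v) (nat_lit 2)) (wp v) (add c (nat_lit 262144))))))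
def lk (T : Nat → Nat) (a b c i v : Nat) : Nat :=
  fn (sub a (sub a c)) fun z => lk2 b c (add c (sub a c)) v (trec (T z) i)
def sL (T : Nat → Nat) (a b : Nat) (ih : K6) (rest U F R E v w : Nat) : Nat :=
  add (add (lk T a b (wt w) (wp w) v) (xor (land (p2 (wt w)) F) (p2 (wt w))))
    (ih rest U F (lor R (p2 (wt w))) E v)

def st (n J NX : Nat) (tZ tR tG : BT) (T : Nat → Nat) (a b key AB S : Nat) (ih : K6)
    (rest U F R E v w : Nat) : Nat :=
  cn (beq (wy w) (nat_lit 1)) (sZ n J tZ tR AB S ih rest U R E v w)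
    (cn (beq (wy w) (nat_lit 0)) (sL T a b ih rest U F R E v w)
      (cn (beq (wy w) (nat_lit 3)) (sE n ih rest U R E v w) (sX n NX tG key AB S ih rest U R E v w)))

/-- zero if `x` lies inside `y` -/
def sb (x y : Nat) : Nat := xor (land x y) x
/-- final checks of a pair -/
def fin (n b Ma Mb U R E : Nat) : Nat :=
  add (add (land U (bt Ma (mul n b) (pall n))) (shiftRight U n))
    (add
      (sb (land (land Ma (put n)) Mb)
        (lor E (lor (mul (land (shiftRight Ma b) (pones n)) (pall n))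
          (mul (pones n) (bt Ma (mul n b) (pall n))))))
      (land (lor Ma Mb) (mul (land (shiftRight Ma b) (pones n)) (land (xor U R) (pall n)))))

def loop (n J NX : Nat) (tZ tR tG : BT) (T : Nat → Nat) (a b key AB S Ma Mb k : Nat) : K6 :=
  Nat.rec (fun _ U _ R E _ => fin n b Ma Mb U R E)
    (fun _ ih rest U F R E v => st n J NX tZ tR tG T a b key AB S ih (shiftRight rest (nat_lit 40))
      U F R E v (land rest (nat_lit 1099511627775))) k

/-- the descriptor `s` occurs among the first `k` words of `D` -/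
def occ (D k s : Nat) : Bool :=
  Nat.rec false (fun i ih => orr (beq (bt D (mul i (nat_lit 40)) (nat_lit 1048575)) s) ih) k
def sdOK (D k s : Nat) : Bool :=
  orr (beq s (nat_lit 0))
    (an (beq (shiftRight s (nat_lit 400)) (nat_lit 0))
      (al (nat_lit 20) fun i => orr (beq (bt s (mul (nat_lit 20) i) (nat_lit 1048575)) (nat_lit 0))
        (occ D k (bt s (mul (nat_lit 20) i) (nat_lit 1048575)))))

def pair (n J NX : Nat) (tZ tR tG : BT) (M T : Nat → Nat) (SM SD : Nat → Nat → Nat) (a b D : Nat) : Bool :=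
  an (sdOK (shiftRight D (nat_lit 12)) (land D (nat_lit 4095)) (SD a b))
    (beq (loop n J NX tZ tR tG T a b (add (mul a (nat_lit 512)) b) (lor (p2 a) (p2 b)) (SM a b)
      (M a) (M b) (land D (nat_lit 4095)) (shiftRight D (nat_lit 12)) (nat_lit 0) (nat_lit 0)
      (nat_lit 0) (nat_lit 0) (nat_lit 0)) (nat_lit 0))

/-- the pairs `(a, b)` with `b0 ≤ b < b1` -/
def row (n J NX : Nat) (tZ tR tG : BT) (M T : Nat → Nat) (SM SD : Nat → Nat → Nat) (a : Nat) (l : List Nat)
    (b0 b1 : Nat) : Bool :=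
  List.rec (fun b => ble b1 b)
    (fun D _ ih b => an (pair n J NX tZ tR tG M T SM SD a b D) (fb (add b (nat_lit 1)) ih)) l b0

/-- keys increase strictly inside a table with `k` records -/
def ttL (k : Nat) : Nat → Nat → Bool :=
  Nat.rec (fun t _ => beq t (nat_lit 0))
    (fun _ ih t p => an (lt p (land t (nat_lit 524287)))
      (ih (shiftRight t (nat_lit 48)) (land t (nat_lit 524287)))) k
def ttOK (T : Nat → Nat) (l : List Nat) (z0 z1 : Nat) : Bool :=
  List.rec (fun z => ble z1 z)
    (fun k _ ih z => an (ttL k (T z) (nat_lit 0)) (fb (add z (nat_lit 1)) ih)) l z0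

end

section Join
variable (n J NX : Nat) (tZ tR tG : BT) (M T : Nat → Nat) (SM SD : Nat → Nat → Nat)

def RG (a b0 b1 : Nat) : Prop :=
  ∀ b, b0 ≤ b → b < b1 → ∃ D, pair n J NX tZ tR tG M T SM SD a b D = true
def RA (a0 a1 : Nat) : Prop := ∀ a, a0 ≤ a → a < a1 → RG n J NX tZ tR tG M T SM SD a (a + 1) n
def TG (z0 z1 : Nat) : Prop := ∀ z, z0 ≤ z → z < z1 → ∃ k, ttL k (T z) 0 = true

variable {n J NX tZ tR tG M T SM SD}

theorem an_t {a b : Bool} (h : an a b = true) : a = true ∧ b = true := by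
  cases a <;> cases b <;> first | exact ⟨rfl, rfl⟩ | exact absurd h (by decide)

theorem rg_of {a b0 b1 : Nat} {l : List Nat} (h : row n J NX tZ tR tG M T SM SD a l b0 b1 = true) :
    RG n J NX tZ tR tG M T SM SD a b0 b1 := by
  induction l generalizing b0 with
  | nil => intro b h0 h1; have h2 : b1 ≤ b0 := Nat.le_of_ble_eq_true h; omega
  | cons D l ih =>
    have h2 := an_t (a := pair n J NX tZ tR tG M T SM SD a b0 D)
      (b := row n J NX tZ tR tG M T SM SD a l (b0 + 1) b1) h
    intro b h0 h1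
    by_cases e : b = b0
    · exact ⟨D, e ▸ h2.1⟩
    · exact ih h2.2 b (by omega) h1

theorem rg_join {a x y z : Nat} (h : RG n J NX tZ tR tG M T SM SD a x y)
    (h' : RG n J NX tZ tR tG M T SM SD a y z) : RG n J NX tZ tR tG M T SM SD a x z :=
  fun b h0 h1 => if e : b < y then h b h0 e else h' b (Nat.le_of_not_lt e) h1

theorem ra_one {a b : Nat} (h : RG n J NX tZ tR tG M T SM SD a b n) (e : a + 1 = b) :
    RA n J NX tZ tR tG M T SM SD a b := by
  intro x h0 h1
  have e1 : x = a := by omega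
  subst e1; subst e; exact h

theorem ra_join {x y z : Nat} (h : RA n J NX tZ tR tG M T SM SD x y)
    (h' : RA n J NX tZ tR tG M T SM SD y z) : RA n J NX tZ tR tG M T SM SD x z :=
  fun b h0 h1 => if e : b < y then h b h0 e else h' b (Nat.le_of_not_lt e) h1

theorem tg_of {z0 z1 : Nat} {l : List Nat} (h : ttOK T l z0 z1 = true) : TG T z0 z1 := by
  induction l generalizing z0 with
  | nil => intro b h0 h1; have h2 : z1 ≤ z0 := Nat.le_of_ble_eq_true h; omega
  | cons k l ih =>
    have h2 := an_t (a := ttL k (T z0) 0) (b := ttOK T l (z0 + 1) z1) h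
    intro b h0 h1
    by_cases e : b = z0
    · exact ⟨k, e ▸ h2.1⟩
    · exact ih h2.2 b (by omega) h1

theorem tg_join {x y z : Nat} (h : TG T x y) (h' : TG T y z) : TG T x z :=
  fun b h0 h1 => if e : b < y then h b h0 e else h' b (Nat.le_of_not_lt e) h1

end Join

end Pool.Agent.MP_797bdc_co.Lk.P
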