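import Pool.Agent.MP_797bdc_co.Lk.P.PD
import Pool.Agent.MP_797bdc_co.Lk.P.PC

/-! Bit level facts for checker P. -/

namespace Pool.Agent.MP_797bdc_co.Lk.P

theorem and_md (x k w : ℕ) (h : w + 1 = 2 ^ k) : Nat.land x w = x % 2 ^ k := by
  have e : w = 2 ^ k - 1 := by omega
  rw [e]; exact Nat.and_two_pow_sub_one_eq_mod x k
theorem bt_md (x i k w : ℕ) (h : w + 1 = 2 ^ k) : bt x i w = x / 2 ^ i % 2 ^ k := by
  rw [← Nat.shiftRight_eq_div_pow]; exact and_md _ k w h
theorem wy_eq (w : ℕ) : wy w = w % 4 := and_md w 2 3 rfl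
theorem wp_eq (w : ℕ) : wp w = w / 4 % 262144 := bt_md w 2 18 _ rfl
theorem wc_eq (w : ℕ) : wc w = w / 4 % 512 := bt_md w 2 9 _ rfl
theorem wd_eq (w : ℕ) : wd w = w / 2048 % 512 := bt_md w 11 9 _ rfl
theorem wt_lt (w : ℕ) : wt w < 512 := by
  rw [show wt w = _ from bt_md w 20 9 _ rfl]; exact Nat.mod_lt _ (by norm_num)
theorem pall_eq (n : ℕ) : pall n = 2 ^ n - 1 := by rw [← p2_eq]; rfl
theorem p2_bit (i c : ℕ) : (p2 i).testBit c = true ↔ c = i := by
  rw [p2_eq, Nat.testBit_two_pow, decide_eq_true_iff, eq_comm]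
theorem lor_bit (x y c : ℕ) : (Nat.lor x y).testBit c = true ↔ x.testBit c = true ∨ y.testBit c = true := by
  rw [show Nat.lor x y = x ||| y from rfl, Nat.testBit_or, Bool.or_eq_true]
theorem land_bit (x y c : ℕ) :
    (Nat.land x y).testBit c = true ↔ x.testBit c = true ∧ y.testBit c = true := by
  rw [show Nat.land x y = x &&& y from rfl, Nat.testBit_and, Bool.and_eq_true]
theorem xor_bit (x y c : ℕ) :
    (Nat.xor x y).testBit c = true ↔ ¬ (x.testBit c = true ↔ y.testBit c = true) := by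
  rw [show Nat.xor x y = x ^^^ y from rfl, Nat.testBit_xor]
  cases x.testBit c <;> cases y.testBit c <;> simp
theorem xor0 {x y : ℕ} (h : Nat.xor x y = 0) : x = y := Nat.eq_of_xor_eq_zero h
theorem add0 {x y : ℕ} (h : Nat.add x y = 0) : x = 0 ∧ y = 0 := Nat.eq_zero_of_add_eq_zero h
theorem land0 {x y : ℕ} (h : Nat.land x y = 0) (c : ℕ) (hx : x.testBit c = true) :
    y.testBit c = false := by
  cases e : y.testBit c
  · rfl
  · have := (land_bit x y c).2 ⟨hx, e⟩
    rw [h] at this; simp at this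
theorem sb0 {x y : ℕ} (h : sb x y = 0) (c : ℕ) (hx : x.testBit c = true) : y.testBit c = true := by
  rw [← xor0 h] at hx; exact ((land_bit _ _ _).1 hx).2
theorem beq_t {x y : ℕ} : Nat.beq x y = true ↔ x = y := Nat.beq_eq.to_iff
theorem fn_eq (x : ℕ) (f : ℕ → ℕ) : fn x f = f x := rfl
theorem lin {n x y c d : ℕ} (h : n * x + y = n * c + d) (hy : y < n) (hd : d < n) :
    c = x ∧ d = y := by
  have e1 := congrArg (· / n) h
  have e2 := congrArg (· % n) h
  simp only [Nat.mul_add_div (by omega : n > 0), Nat.div_eq_of_lt hy, Nat.div_eq_of_lt hd,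
    Nat.mul_add_mod, Nat.mod_eq_of_lt hy, Nat.mod_eq_of_lt hd] at e1 e2
  omega

theorem cmn0 {V w v U : ℕ} (h : cmn V w v U = 0) :
    wr v < wr w ∧ ∀ c, U.testBit c = true → V.testBit c = true → c = wt w := by
  obtain ⟨h1, h2⟩ := add0 h
  refine ⟨Nat.le_of_sub_eq_zero h2, fun c hu hv => ?_⟩
  rw [← p2_bit, ← xor0 h1, lor_bit, land_bit]
  exact .inl ⟨hv, hu⟩

theorem cm_bit (tZ : BT) (j c : ℕ) :
    (cm tZ j).testBit c = true ↔ ∃ i < 4, c = zc (tZ.get j) i := by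
  simp only [cm, lor_bit, p2_bit]
  constructor
  · rintro ((h | h) | h | h)
    exacts [⟨0, by omega, h⟩, ⟨1, by omega, h⟩, ⟨2, by omega, h⟩, ⟨3, by omega, h⟩]
  · rintro ⟨i, hi, h⟩
    interval_cases i
    exacts [.inl (.inl h), .inl (.inr h), .inr (.inl h), .inr (.inr h)]

theorem cy_bit (n : ℕ) (tZ : BT) (j m : ℕ) (h : (cy n tZ j).testBit m = true) :
    ∃ i < 4, m = n * zc (tZ.get j) i + zc (tZ.get j) ((i + 1) % 4) ∨
      m = n * zc (tZ.get j) ((i + 1) % 4) + zc (tZ.get j) i := by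
  simp only [cy, e2, lor_bit, p2_bit] at h
  rcases h with (h | h) | h | h
  exacts [⟨0, by omega, h⟩, ⟨1, by omega, h⟩, ⟨2, by omega, h⟩, ⟨3, by omega, h⟩]

theorem rm_bit {J : ℕ} {tZ tR : BT} (h : rmOK J tZ tR = true) {j a : ℕ}
    (ha : (rm J tR j).testBit a = true) : j < J ∧ ∃ p < zl (tZ.get j), zr (tZ.get j) p = a := by
  rw [rm, cn_eq] at ha
  split_ifs at ha with e
  · have hj := lt_iff.1 e
    rw [beq_t.1 (al_iff.1 h j hj), rimM] at ha
    refine ⟨hj, ?_⟩
    generalize zl (tZ.get j) = k at ha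
    induction k with
    | zero => simp at ha
    | succ k ih =>
      rcases (lor_bit _ _ _).1 ha with h1 | h1
      · exact ⟨k, by omega, ((p2_bit _ _).1 h1).symm⟩
      · obtain ⟨p, hp, e⟩ := ih h1
        exact ⟨p, by omega, e⟩
  · simp at ha

theorem xc_bit (n key r m : ℕ) : (xc n key r).testBit m = true ↔
    ∃ i < xk r, xg r i >>> 18 = key ∧
      (m = n * gc (xg r i) + gd (xg r i) + 512 ∨ m = gc (xg r i) ∨ m = gd (xg r i)) := by
  rw [xc]
  generalize xk r = k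
  induction k with
  | zero => simp
  | succ k ih =>
    rw [Nat.exists_lt_succ_right, ← ih]
    change (xg1 n key (xg r k) _).testBit m = true ↔ _
    rw [xg1, cn_eq]
    split_ifs with e
    · have e' : xg r k >>> 18 = key := beq_t.1 e
      simp only [lor_bit, p2_bit, e', true_and]
      rfl
    · have e' : ¬ xg r k >>> 18 = key := fun h => e (beq_t.2 h)
      simp only [e', false_and, or_false]

theorem gc_lt (g : ℕ) : gc g < 512 := by
  rw [show gc g = _ from bt_md g 9 9 _ rfl]; exact Nat.mod_lt _ (by norm_num)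
theorem gd_lt (g : ℕ) : gd g < 512 := by
  rw [show gd g = _ from and_md g 9 _ rfl]; exact Nat.mod_lt _ (by norm_num)
theorem key_iff (r i a b : ℕ) (hb : b < 512) :
    xg r i >>> 18 = a * 512 + b ↔ ga (xg r i) = a ∧ gb (xg r i) = b := by
  have h : xg r i < 2 ^ 36 := by
    rw [show xg r i = _ from bt_md r _ 36 _ rfl]; exact Nat.mod_lt _ (by norm_num)
  generalize xg r i = g at h
  rw [show ga g = _ from bt_md g 27 9 _ rfl, show gb g = _ from bt_md g 18 9 _ rfl,
    Nat.shiftRight_eq_div_pow]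
  omega

theorem xv_bit (n r a b c : ℕ) (hb : b < 512) : (xv n (a * 512 + b) r).testBit c = true ↔
    ∃ i < xk r, ga (xg r i) = a ∧ gb (xg r i) = b ∧ (c = gc (xg r i) ∨ c = gd (xg r i)) := by
  rw [show xv n (a * 512 + b) r = Nat.land (xc n (a * 512 + b) r) (pall 512) from rfl, land_bit,
    xc_bit, pall_eq, Nat.testBit_two_pow_sub_one, decide_eq_true_iff]
  constructor
  · rintro ⟨⟨i, hi, h1, h2⟩, h3⟩
    have h4 := (key_iff r i a b hb).1 h1
    exact ⟨i, hi, h4.1, h4.2, h2.resolve_left (by omega)⟩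
  · rintro ⟨i, hi, h1, h2, h3⟩
    have := gc_lt (xg r i)
    have := gd_lt (xg r i)
    exact ⟨⟨i, hi, (key_iff r i a b hb).2 ⟨h1, h2⟩, .inr h3⟩, by omega⟩

theorem xm_bit (n r a b m : ℕ) (hb : b < 512) (h : (xm n (a * 512 + b) r).testBit m = true) :
    ∃ i < xk r, ga (xg r i) = a ∧ gb (xg r i) = b ∧ m = n * gc (xg r i) + gd (xg r i) := by
  rw [show xm n (a * 512 + b) r = xc n (a * 512 + b) r >>> 512 from rfl, Nat.testBit_shiftRight,
    xc_bit] at h
  obtain ⟨i, hi, h1, h2⟩ := h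
  have h4 := (key_iff r i a b hb).1 h1
  have := gc_lt (xg r i)
  have := gd_lt (xg r i)
  exact ⟨i, hi, h4.1, h4.2, by omega⟩

theorem ut_bit (hm : MAT_s) {n : ℕ} (h : utOK n = true) {c d : ℕ} (hcd : c < d) (hd : d < n) :
    (put n).testBit (n * c + d) = true := by
  have h1 := congrArg (·.testBit d = true) (beq_t.1 (al_iff.1 h c (by omega)))
  simp only [lor_bit, pall_eq, Nat.testBit_two_pow_sub_one, decide_eq_true_iff, eq_iff_iff] at h1
  have h2 := (h1.2 hd).resolve_right (by change ¬ d < c + 1; omega)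
  rw [← (hm n (by omega)).2.2.2.2.2.2 (put n) c d hd]
  exact h2

/-- `w` is one of the first `k` words of `D`. -/
def Wd (D k w : ℕ) : Prop := ∃ i < k, w = D / 2 ^ (40 * i) % 2 ^ 40

theorem wd_succ (D k w : ℕ) : Wd D (k + 1) w ↔
    w = Nat.land D 1099511627775 ∨ Wd (Nat.shiftRight D 40) k w := by
  rw [Wd, Nat.exists_lt_succ_left, and_md D 40 _ rfl]
  simp only [Wd, Nat.mul_zero, Nat.pow_zero, Nat.div_one,
    show ∀ x y, Nat.shiftRight x y = x >>> y from fun _ _ => rfl, Nat.shiftRight_eq_div_pow,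
    Nat.div_div_eq_div_mul, ← Nat.pow_add, Nat.mul_succ, Nat.add_comm 40]

theorem occ_wd {D k s : ℕ} (h : occ D k s = true) : ∃ w, Wd D k w ∧ w % 1048576 = s := by
  rw [occ] at h
  induction k with
  | zero => exact absurd h (by simp)
  | succ k ih =>
    rcases orr_iff.1 h with h1 | h1
    · refine ⟨_, ⟨k, by omega, rfl⟩, ?_⟩
      rw [← beq_t.1 h1, bt_md D _ 20 _ rfl, Nat.mul_comm 40]
      exact Nat.mod_mod_of_dvd _ (by norm_num)
    · obtain ⟨w, ⟨i, hi, e⟩, h2⟩ := ih h1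
      exact ⟨w, ⟨i, by omega, e⟩, h2⟩

theorem sd_wd {D k s v : ℕ} (h : sdOK D k s = true) (hv : sdm s v) (h4 : v % 4 ≠ 0) :
    ∃ w, Wd D k w ∧ w % 1048576 = v := by
  obtain ⟨i, e⟩ := hv
  rcases orr_iff.1 h with h1 | h1
  · rw [beq_t.1 h1] at e; simp at e; omega
  obtain ⟨h2, h3⟩ := an_iff.1 h1
  by_cases hi : i < 20
  · rcases orr_iff.1 (al_iff.1 h3 i hi) with h5 | h5
    · have h6 : v = 0 := e.symm.trans (beq_t.1 h5)
      omega
    · exact e ▸ occ_wd h5
  · have h5 : s >>> 400 = 0 := beq_t.1 h2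
    obtain ⟨l, rfl⟩ : ∃ l, i = 20 + l := ⟨i - 20, by omega⟩
    rw [Nat.mul_add, Nat.shiftRight_add, h5] at e
    simp at e; omega

/-- The table `T` registers the token `s` with home rank `h` and tag `g`. -/
def HRt (n : ℕ) (T : ℕ → ℕ) (s : Finset ℕ) (h g : ℕ) : Prop :=
  ∃ a b c i, a < b ∧ b < n ∧ c < n ∧ c ≠ a ∧ c ≠ b ∧ s = {a, b, c} ∧
    trec (T (a - (a - c))) i % 524288 = tk b (c + (a - c)) ∧
    h = trec (T (a - (a - c))) i / 2 ^ 38 ∧ g = trec (T (a - (a - c))) i / 524288 % 524288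

theorem trec_eq (t i : ℕ) : trec t i = t / 2 ^ (i * 48) % 2 ^ 48 := bt_md t _ 48 _ rfl

theorem ttL_mono {k t p : ℕ} (h : ttL k t p = true) :
    (∀ i, trec t i % 524288 ≠ 0 → p < trec t i % 524288) ∧
      ∀ i j, trec t i % 524288 ≠ 0 → trec t i % 524288 = trec t j % 524288 → i = j := by
  induction k generalizing t p with
  | zero =>
    have e : t = 0 := beq_t.1 h
    simp [e, trec_eq]
  | succ k ih =>
    obtain ⟨h1, h2⟩ : lt p (Nat.land t 524287) = true ∧
      ttL k (Nat.shiftRight t 48) (Nat.land t 524287) = true := an_iff.1 h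
    obtain ⟨i1, i2⟩ := ih h2
    have e0 : trec t 0 % 524288 = Nat.land t 524287 := by
      rw [trec_eq, and_md t 19 _ rfl]; simp only [Nat.zero_mul, Nat.pow_zero, Nat.div_one]
      exact Nat.mod_mod_of_dvd _ (by norm_num)
    have e1 : ∀ i, trec t (i + 1) = trec (Nat.shiftRight t 48) i := fun i => by
      rw [trec_eq, trec_eq, show Nat.shiftRight t 48 = t >>> 48 from rfl, Nat.shiftRight_eq_div_pow,
        Nat.div_div_eq_div_mul, ← Nat.pow_add, Nat.succ_mul, Nat.add_comm 48]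
    have h3 := lt_iff.1 h1
    refine ⟨fun i hi => ?_, fun i j hi e => ?_⟩
    · cases i with
      | zero => omega
      | succ i => rw [e1] at hi ⊢; exact h3.trans (i1 i hi)
    · cases i <;> cases j
      · rfl
      · rw [e1] at e; have := i1 _ (e ▸ hi); omega
      · rw [e1] at e hi; have := i1 _ hi; omega
      · rw [e1] at e hi; rw [e1] at e; exact congrArg _ (i2 _ _ hi e)

theorem tk_eq (b m : ℕ) : tk b m = (m + b) * 512 + ((m - b) + (b - m)) := rfl

theorem hr_uniq {n : ℕ} {T : ℕ → ℕ} (hT : TG T 0 n) (s : Finset ℕ) (h g h' g' : ℕ)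
    (H : HRt n T s h g) (H' : HRt n T s h' g') : h = h' ∧ g = g' := by
  obtain ⟨a, b, c, i, p1, p2, p3, p4, p5, rfl, k1, rfl, rfl⟩ := H
  obtain ⟨a', b', c', i', q1, q2, q3, q4, q5, e, k2, rfl, rfl⟩ := H'
  have m1 : a = a' ∨ a = b' ∨ a = c' := by simpa using (Finset.ext_iff.1 e a).1 (by simp)
  have m2 : b = a' ∨ b = b' ∨ b = c' := by simpa using (Finset.ext_iff.1 e b).1 (by simp)
  have m3 : c = a' ∨ c = b' ∨ c = c' := by simpa using (Finset.ext_iff.1 e c).1 (by simp)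
  have e1 : a' - (a' - c') = a - (a - c) ∧ tk b' (c' + (a' - c')) = tk b (c + (a - c)) := by
    rw [tk_eq, tk_eq]
    rcases m1 with rfl | rfl | rfl <;> rcases m2 with rfl | rfl | rfl <;>
      rcases m3 with rfl | rfl | rfl <;> omega
  rw [e1.1] at k2 ⊢
  obtain ⟨k, hk⟩ := hT (a - (a - c)) (Nat.zero_le _) (by omega)
  have e2 := (ttL_mono hk).2 i i' (by rw [k1, tk_eq]; omega) (by rw [k1, k2, e1.2])
  rw [e2]; exact ⟨rfl, rfl⟩

theorem lk_hr {n : ℕ} {T : ℕ → ℕ} {a b c i v : ℕ} (hn : n ≤ 512) (h : lk T a b c i v = 0)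
    (hab : a < b) (hb : b < n) (hc : c < n) (ha' : c ≠ a) (hb' : c ≠ b) :
    ∃ h g, HRt n T {a, b, c} h g ∧ (c = wt v → h < wr v) ∧
      (c ≠ wt v → h = wr v ∧
        g = if v % 1048576 % 4 = 2 then v % 1048576 / 4 else c + 262144) := by
  rw [lk, fn_eq, lk2] at h
  obtain ⟨h1, h2⟩ := add0 h
  refine ⟨_, _, ⟨a, b, c, i, hab, hb, hc, ha', hb', rfl, (and_md _ 19 _ rfl).symm.trans (xor0 h1),
    rfl, rfl⟩, fun e => ?_, fun e => ?_⟩
  · rw [cn_eq, if_pos (beq_t.2 e)] at h2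
    rw [← Nat.shiftRight_eq_div_pow]
    exact Nat.le_of_sub_eq_zero h2
  · rw [cn_eq, if_neg (fun x => e (beq_t.1 x))] at h2
    have h3 : trec (T (a - (a - c))) i >>> 19 = wr v <<< 19 + _ := xor0 h2
    rw [cn_eq, Nat.shiftRight_eq_div_pow, Nat.shiftLeft_eq] at h3
    generalize trec (T (a - (a - c))) i = x at h3
    simp only [beq_t, wy_eq, wp_eq, Nat.add_eq] at h3
    split_ifs at h3 ⊢ <;> omega

end Pool.Agent.MP_797bdc_co.Lk.P
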