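import Pool.Agent.MP_797bdc_co.Lk.PI

/-! What checker P establishes at one apex pair, and the assembly statement. -/

namespace Pool.Agent.MP_797bdc_co.Lk.P

open Finset

/-- The edge `c d` belongs to the block `v` at the apex pair `a, b`. -/
def ED (Z : Zn) (tG : BT) (a b v c d : ℕ) : Prop :=
  (v % 4 = 1 ∧ ∃ i < 4, (c = Z.c (v / 4) i ∧ d = Z.c (v / 4) ((i + 1) % 4)) ∨
    (d = Z.c (v / 4) i ∧ c = Z.c (v / 4) ((i + 1) % 4))) ∨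
  (v % 4 = 2 ∧ ∃ i < xk (tG.get (v / 4)), ga (xg (tG.get (v / 4)) i) = a ∧
    gb (xg (tG.get (v / 4)) i) = b ∧ gc (xg (tG.get (v / 4)) i) = c ∧
    gd (xg (tG.get (v / 4)) i) = d) ∨
  (v % 4 = 3 ∧ c = v / 4 % 512 ∧ d = v / 4 / 512)

/-- `es v t r`: the pair `a < b` has an entry with descriptor `v`, top vertex `t` and rank `r`.
`HR s h g`: the token `s` is registered with home rank `h` and tag `g`. -/
structure PairS (n : ℕ) (G : Finset (Finset ℕ)) (Z : Zn) (tG : BT) (NX : ℕ) (SM SD : ℕ → ℕ → ℕ)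
    (HR : Finset ℕ → ℕ → ℕ → Prop) (a b : ℕ) (es : ℕ → ℕ → ℕ → Prop) : Prop where
  sm : ∀ v t r, es v t r → v / 4 < 262144
  ord : ∀ v t r v' t' r', es v t r → es v' t' r' → (v = v' ∧ t = t' ∧ r = r') ∨
    (r < r' ∧ ∀ c, VD Z tG a b v c → VD Z tG a b v' c → c = t') ∨
    (r' < r ∧ ∀ c, VD Z tG a b v c → VD Z tG a b v' c → c = t)
  cov : ∀ c < n, ∀ d < n, c < d → ({a, c, d} : Finset ℕ) ∈ G → ({b, c, d} : Finset ℕ) ∈ G →
    ({a, b, c} : Finset ℕ) ∉ G → ({a, b, d} : Finset ℕ) ∉ G →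
    ∃ v t r, es v t r ∧ ED Z tG a b v c d
  zf : ∀ v t r, es v t r → v % 4 = 1 → v / 4 < Z.J ∧ (∃ p < Z.L (v / 4), Z.rim (v / 4) p = a) ∧
    (∃ p < Z.L (v / 4), Z.rim (v / 4) p = b) ∧
    (∀ i < 4, ({a, b, Z.c (v / 4) i} : Finset ℕ) ∉ G) ∧
    ∀ c, VD Z tG a b v c → (SM a b).testBit c = false
  xf : ∀ v t r, es v t r → v % 4 = 2 → v / 4 < NX ∧
    (xnl (tG.get (v / 4)) = 0 → ∀ c, VD Z tG a b v c → (SM a b).testBit c = false) ∧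
    (VD Z tG a b v t → ({a, b, t} : Finset ℕ) =
      {xt0 (tG.get (v / 4)), xt1 (tG.get (v / 4)), xt2 (tG.get (v / 4))})
  lk : ∀ v t r, es v t r → ∀ c < n, c ≠ a → c ≠ b → VD Z tG a b v c →
    (∀ d < n, ({a, b, d} : Finset ℕ) ∈ G →
      ({a, c, d} : Finset ℕ) ∉ G ∧ ({b, c, d} : Finset ℕ) ∉ G) ∨
    ∃ v0 t0 r0, es v0 t0 r0 ∧ VD Z tG a b v0 c ∧
      (∀ v' t' r', es v' t' r' → VD Z tG a b v' c → r0 ≤ r') ∧
      ∃ h g, HR {a, b, c} h g ∧ (c = t0 → h < r0) ∧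
        (c ≠ t0 → h = r0 ∧ g = if v0 % 4 = 2 then v0 / 4 else c + 262144)
  sd : ∀ v, sdm (SD a b) v → v % 4 ≠ 0 → ∃ t r, es v t r

/-- Assembly: the pair facts give the block property for all gates. -/
def PASM_s : Prop := ∀ (Z : Zn) n (hd : DimP n) root par G Sig u τ1 τ2 h1 h2,
  Base (sysN n hd) G Sig u τ1 τ2 h1 h2 → Z.OK n root par G → (∀ f ∈ Sig, Z.lab f = 0) →
  ∀ (tG : BT) (NX : ℕ) (SM SD : ℕ → ℕ → ℕ) (HR : Finset ℕ → ℕ → ℕ → Prop),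
  (∀ s h g h' g', HR s h g → HR s h' g' → h = h' ∧ g = g') →
  (∀ a b, a < b → b < n → ∃ es, PairS n G Z tG NX SM SD HR a b es) →
  POK n hd G Z tG NX SM SD

end Pool.Agent.MP_797bdc_co.Lk.P
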