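import Pool.Agent.MP_797bdc_co.Lk.P.PB

/-! Soundness of checker P. -/

namespace Pool.Agent.MP_797bdc_co.Lk.P

section Loop
variable (n J NX : ℕ) (tZ tR tG : BT) (T : ℕ → ℕ) (a b key AB S : ℕ)

/-- vertex mask and edge matrix of a word -/
noncomputable def Vw (w : ℕ) : ℕ :=
  if wy w = 1 then cm tZ (wp w) else if wy w = 0 then 0 else
    if wy w = 3 then Nat.lor (p2 (wc w)) (p2 (wd w)) else xv n key (tG.get (wp w))
noncomputable def Ew (w : ℕ) : ℕ :=
  if wy w = 1 then cy n tZ (wp w) else if wy w = 0 then 0 else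
    if wy w = 3 then p2 (n * wc w + wd w) else xm n key (tG.get (wp w))

def TyOK (w : ℕ) : Prop :=
  (wy w = 1 → Nat.land (cm tZ (wp w)) S = 0 ∧ Nat.land AB (rm J tR (wp w)) = AB) ∧
  (wy w = 2 → wp w < NX ∧
    (xnl (tG.get (wp w)) = 0 → Nat.land (xv n key (tG.get (wp w))) S = 0) ∧
    (Nat.lor AB (p2 (wt w)) = Nat.lor (p2 (xt0 (tG.get (wp w))))
        (Nat.lor (p2 (xt1 (tG.get (wp w)))) (p2 (xt2 (tG.get (wp w))))) ∨
      Nat.land (xv n key (tG.get (wp w))) (p2 (wt w)) = 0))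

variable {n J NX tZ tR tG T a b key AB S}

theorem st_cases {ih : K6} {rest U F R E v w : ℕ}
    (h : st n J NX tZ tR tG T a b key AB S ih rest U F R E v w = 0) :
    (wy w = 0 ∧ lk T a b (wt w) (wp w) v = 0 ∧ F.testBit (wt w) = true ∧
      ih rest U F (Nat.lor R (p2 (wt w))) E v = 0) ∨
    (wy w ≠ 0 ∧ TyOK n J NX tZ tR tG key AB S w ∧ cmn (Vw n tZ tG key w) w v U = 0 ∧
      ih rest (Nat.lor U (Vw n tZ tG key w)) (Nat.xor (Nat.lor U (Vw n tZ tG key w)) U) R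
        (Nat.lor E (Ew n tZ tG key w)) w = 0) := by
  rw [st, cn_eq, cn_eq, cn_eq] at h
  simp only [beq_t] at h
  rw [Vw, Ew]
  by_cases e1 : wy w = 1
  · rw [if_pos e1, sZ, fn_eq] at h
    obtain ⟨h1, h2⟩ := add0 h
    obtain ⟨h3, h4⟩ := add0 h1
    obtain ⟨h5, h6⟩ := add0 h4
    rw [if_pos e1, if_pos e1]
    exact .inr ⟨by omega, ⟨fun _ => ⟨h5, xor0 h6⟩, fun e => by omega⟩, h3, h2⟩
  rw [if_neg e1] at h
  by_cases e0 : wy w = 0
  · rw [if_pos e0, sL] at h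
    obtain ⟨h1, h2⟩ := add0 h
    obtain ⟨h3, h4⟩ := add0 h1
    refine .inl ⟨e0, h3, ((land_bit (p2 (wt w)) F _).1 ?_).2, h2⟩
    rw [xor0 h4, p2_bit]
  rw [if_neg e0] at h
  rw [if_neg e1, if_neg e1, if_neg e0, if_neg e0]
  by_cases e3 : wy w = 3
  · rw [if_pos e3, sE] at h
    obtain ⟨h1, h2⟩ := add0 h
    rw [if_pos e3, if_pos e3]
    exact .inr ⟨e0, ⟨fun e => by omega, fun e => by omega⟩, h1, h2⟩
  rw [if_neg e3, sX, fn_eq, sX2] at h
  obtain ⟨h1, h2⟩ := add0 h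
  obtain ⟨h3, h4⟩ := add0 h1
  obtain ⟨h5, h6⟩ := add0 h4
  obtain ⟨h7, h8⟩ := add0 h5
  rw [if_neg e3, if_neg e3]
  refine .inr ⟨e0, ⟨fun e => absurd e e1, fun _ => ⟨Nat.le_of_sub_eq_zero h7, fun e => ?_, ?_⟩⟩,
    h3, h2⟩
  · rwa [cn_eq, if_pos (beq_t.2 e)] at h8
  · rw [cn_eq] at h6
    split_ifs at h6 with e
    exacts [.inl (beq_t.1 e), .inr h6]

theorem vw_ne {w c : ℕ} (h : (Vw n tZ tG key w).testBit c = true) : wy w ≠ 0 := by
  intro e
  rw [Vw, if_neg (by omega), if_pos e] at h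
  simp at h

theorem loop_sound {Ma Mb : ℕ} (k : ℕ) : ∀ rest U F R E v,
    loop n J NX tZ tR tG T a b key AB S Ma Mb k rest U F R E v = 0 →
    ∃ U' R' E', fin n b Ma Mb U' R' E' = 0 ∧
      (∀ c, U.testBit c = true → U'.testBit c = true) ∧
      (∀ e, Wd rest k e → ∀ c, (Vw n tZ tG key e).testBit c = true → U'.testBit c = true) ∧
      (∀ m, E'.testBit m = true → E.testBit m = true ∨
        ∃ e, Wd rest k e ∧ (Ew n tZ tG key e).testBit m = true) ∧
      (∀ e, Wd rest k e → wy e ≠ 0 → wr v < wr e ∧ TyOK n J NX tZ tR tG key AB S e ∧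
        ∀ c, U.testBit c = true → (Vw n tZ tG key e).testBit c = true → c = wt e) ∧
      (∀ e, Wd rest k e → ∀ e', Wd rest k e' → wy e ≠ 0 → wy e' ≠ 0 → e = e' ∨
        (wr e < wr e' ∧ ∀ c, (Vw n tZ tG key e).testBit c = true →
          (Vw n tZ tG key e').testBit c = true → c = wt e') ∨
        (wr e' < wr e ∧ ∀ c, (Vw n tZ tG key e).testBit c = true →
          (Vw n tZ tG key e').testBit c = true → c = wt e)) ∧
      (∀ c, R'.testBit c = true → R.testBit c = true ∨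
        (F.testBit c = true ∧ ∃ i, lk T a b c i v = 0) ∨
        ∃ e, Wd rest k e ∧ (Vw n tZ tG key e).testBit c = true ∧ ¬ U.testBit c = true ∧
          (∀ e', Wd rest k e' → (Vw n tZ tG key e').testBit c = true → wr e ≤ wr e') ∧
          ∃ i, lk T a b c i e = 0) := by
  induction k with
  | zero =>
    intro rest U F R E v h
    have z : ∀ e, ¬ Wd rest 0 e := fun e ⟨i, hi, _⟩ => by omega
    exact ⟨U, R, E, h, fun _ h => h, fun e he => (z e he).elim, fun _ h => .inl h,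
      fun e he => (z e he).elim, fun e he => (z e he).elim, fun _ h => .inl h⟩
  | succ k ih =>
    intro rest U F R E v h
    simp only [wd_succ]
    generalize hw : Nat.land rest 1099511627775 = w
    have h' : st n J NX tZ tR tG T a b key AB S (loop n J NX tZ tR tG T a b key AB S Ma Mb k)
      (Nat.shiftRight rest 40) U F R E v w = 0 := hw ▸ h
    rcases st_cases h' with ⟨y, l1, l2, l3⟩ | ⟨y, l1, l2, l3⟩
    · obtain ⟨U', R', E', f, i1, i2, i3, i4, i5, i6⟩ := ih _ _ _ _ _ _ l3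
      refine ⟨U', R', E', f, i1, ?_, fun m hm => (i3 m hm).imp_right fun ⟨e, he, x⟩ => ⟨e, .inr he, x⟩,
        ?_, ?_, fun c hc => ?_⟩
      · rintro e (rfl | he) c hc
        exacts [absurd y (vw_ne hc), i2 e he c hc]
      · rintro e (rfl | he) hy
        exacts [absurd y hy, i4 e he hy]
      · rintro e (rfl | he) e' (rfl | he') hy hy'
        exacts [absurd y hy, absurd y hy, absurd y hy', i5 e he e' he' hy hy']
      · rcases i6 c hc with x | x | ⟨e, he, x1, x2, x3, x4⟩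
        · rcases (lor_bit _ _ _).1 x with x | x
          · exact .inl x
          · rw [(p2_bit _ _).1 x]; exact .inr (.inl ⟨l2, _, l1⟩)
        · exact .inr (.inl x)
        · refine .inr (.inr ⟨e, .inr he, x1, x2, ?_, x4⟩)
          rintro e' (rfl | he') hc'
          exacts [absurd y (vw_ne hc'), x3 e' he' hc']
    · obtain ⟨U', R', E', f, i1, i2, i3, i4, i5, i6⟩ := ih _ _ _ _ _ _ l3
      obtain ⟨c1, c2⟩ := cmn0 l2
      refine ⟨U', R', E', f, fun c hc => i1 c ((lor_bit _ _ _).2 (.inl hc)), ?_, fun m hm => ?_,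
        ?_, ?_, fun c hc => ?_⟩
      · rintro e (rfl | he) c hc
        exacts [i1 c ((lor_bit _ _ _).2 (.inr hc)), i2 e he c hc]
      · rcases i3 m hm with x | ⟨e, he, x⟩
        · exact ((lor_bit _ _ _).1 x).imp_right fun x => ⟨w, .inl rfl, x⟩
        · exact .inr ⟨e, .inr he, x⟩
      · rintro e (rfl | he) hy
        · exact ⟨c1, l1, c2⟩
        · obtain ⟨x1, x2, x3⟩ := i4 e he hy
          exact ⟨c1.trans x1, x2, fun c hc => x3 c ((lor_bit _ _ _).2 (.inl hc))⟩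
      · rintro e (rfl | he) e' (rfl | he') hy hy'
        · exact .inl rfl
        · obtain ⟨x1, -, x3⟩ := i4 e' he' hy'
          exact .inr (.inl ⟨x1, fun c hc => x3 c ((lor_bit _ _ _).2 (.inr hc))⟩)
        · obtain ⟨x1, -, x3⟩ := i4 e he hy
          exact .inr (.inr ⟨x1, fun c hc hc' => x3 c ((lor_bit _ _ _).2 (.inr hc')) hc⟩)
        · exact i5 e he e' he' hy hy'
      · rcases i6 c hc with x | ⟨x1, x2⟩ | ⟨e, he, x1, x2, x3, x4⟩
        · exact .inl x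
        · rw [xor_bit, lor_bit] at x1
          refine .inr (.inr ⟨w, .inl rfl, by tauto, by tauto, ?_, x2⟩)
          rintro e' (rfl | he') hc'
          exacts [le_rfl, (i4 e' he' (vw_ne hc')).1.le]
        · rw [lor_bit, not_or] at x2
          refine .inr (.inr ⟨e, .inr he, x1, x2.1, ?_, x4⟩)
          rintro e' (rfl | he') hc'
          exacts [absurd hc' x2.2, x3 e' he' hc']

end Loop

section Pair
variable {n J NX : ℕ} {tZ tF tR tG : BT} {SK : ℕ} {M T : ℕ → ℕ} {SM SD : ℕ → ℕ → ℕ} {a b : ℕ}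

theorem dv4 (w : ℕ) : w % 1048576 % 4 = wy w ∧ w % 1048576 / 4 = wp w ∧
    wp w % 512 = wc w ∧ wp w / 512 = wd w ∧ wy w < 4 ∧ wp w < 262144 := by
  rw [wy_eq, wp_eq, wc_eq, wd_eq]; omega

theorem vw_vd (hb : b < 512) (w c : ℕ) : (Vw n tZ tG (a * 512 + b) w).testBit c = true ↔
    VD (mkZ n J tZ tF SK) tG a b (w % 1048576) c := by
  obtain ⟨d1, d2, d3, d4, d5, -⟩ := dv4 w
  rw [VD, d1, d2, d3, d4, Vw]
  split_ifs with e1 e0 e3
  · rw [cm_bit]; simp only [e1]; simp; rfl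
  · simp [e0]
  · rw [lor_bit, p2_bit, p2_bit]; simp [e3]
  · have e2 : wy w = 2 := by omega
    rw [xv_bit _ _ _ _ _ hb]; simp [e2]

theorem pairS_of (hm : MAT_s) (hn : n ≤ 512) (hs : SymM n M)
    (hc : ∀ j < J, ∀ i < 4, zc (tZ.get j) i < n) (hut : utOK n = true) (hrm : rmOK J tZ tR = true)
    (hab : a < b) (hb : b < n) {D : ℕ} (h : pair n J NX tZ tR tG M T SM SD a b D = true) :
    ∃ es, PairS n (Gd n M) (mkZ n J tZ tF SK) tG NX SM SD (HRt n T) a b es := by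
  obtain ⟨hsd, hl⟩ := an_iff.1 h
  obtain ⟨U, R, E, f, -, i2, i3, i4, i5, i6⟩ := loop_sound _ _ _ _ _ _ _ (beq_t.1 hl)
  generalize Nat.shiftRight D (nat_lit 12) = D' at *
  generalize Nat.land D (nat_lit 4095) = k at *
  have ha : a < n := hab.trans hb
  have hb' : b < 512 := by omega
  have V := vw_vd (n := n) (J := J) (tZ := tZ) (tF := tF) (tG := tG) (SK := SK) (a := a) hb'
  obtain ⟨m1, -, -, -, m5, m6, m7⟩ := hm n (by omega)
  obtain ⟨f1, f2⟩ := add0 f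
  obtain ⟨f3, f4⟩ := add0 f1
  obtain ⟨f5, f6⟩ := add0 f2
  have on : Spr n (pones n) (2 ^ n - 1) := by
    rw [show pones n = (p2 (n * n) - 1) / pall n from rfl, p2_eq, pall_eq]; exact m5
  have sl := m6 M hs a ha b hb _ on
  have lb : ∀ d < n, ((M a >>> (n * b)) &&& (2 ^ n - 1)).testBit d = true ↔
      ({a, b, d} : Finset ℕ) ∈ Gd n M := fun d hd => by rw [m7 _ _ d hd, mem_Gd hs ha hb hd]; rfl
  have lt2 : ∀ x, x &&& (2 ^ n - 1) < 2 ^ n := fun x =>
    Nat.and_lt_two_pow _ (Nat.sub_lt (Nat.two_pow_pos n) one_pos)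
  rw [pall_eq] at f3 f5 f6
  have ul : ∀ c, U.testBit c = true → c < n ∧ ({a, b, c} : Finset ℕ) ∉ Gd n M := fun c hc => by
    have h1 : c < n := by
      by_contra x
      obtain ⟨l, rfl⟩ : ∃ l, c = n + l := ⟨c - n, by omega⟩
      rw [← Nat.testBit_shiftRight, show U >>> n = 0 from f4] at hc
      simp at hc
    refine ⟨h1, fun x => ?_⟩
    have h2 := land0 f3 c hc
    rw [bt_eq, show n.mul b = n * b from rfl, (lb c h1).2 x] at h2
    exact absurd h2 (by simp)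
  have ab : ∀ x, (Nat.lor (p2 a) (p2 b)).testBit x = true ↔ x = a ∨ x = b := fun x => by
    rw [lor_bit, p2_bit, p2_bit]
  have zj : ∀ e, Wd D' k e → wy e = 1 → wp e < J ∧
      (∃ p < zl (tZ.get (wp e)), zr (tZ.get (wp e)) p = a) ∧
      ∃ p < zl (tZ.get (wp e)), zr (tZ.get (wp e)) p = b := fun e he y => by
    have h1 := ((i4 e he (by omega)).2.1.1 y).2
    have h2 := rm_bit hrm ((land_bit _ _ a).1 (h1.symm ▸ (ab a).2 (.inl rfl))).2
    have h3 := rm_bit hrm ((land_bit _ _ b).1 (h1.symm ▸ (ab b).2 (.inr rfl))).2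
    exact ⟨h2.1, h2.2, h3.2⟩
  refine ⟨fun v t r => ∃ e, Wd D' k e ∧ wy e ≠ 0 ∧ v = e % 1048576 ∧ t = wt e ∧ r = wr e,
    ?_, ?_, ?_, ?_, ?_, ?_, ?_⟩
  · rintro _ _ _ ⟨e, -, -, rfl, -, -⟩
    omega
  · rintro _ _ _ _ _ _ ⟨e, he, y, rfl, rfl, rfl⟩ ⟨e', he', y', rfl, rfl, rfl⟩
    simp only [← V]
    rcases i5 e he e' he' y y' with rfl | x
    exacts [.inl ⟨rfl, rfl, rfl⟩, .inr x]
  · intro c hc' d hd hcd g1 g2 g3 g4
    have x := sb0 f5 (n * c + d) ((land_bit _ _ _).2 ⟨(land_bit _ _ _).2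
      ⟨(mem_Gd hs ha hc' hd).1 g1, ut_bit hm hut hcd hd⟩, (mem_Gd hs hb hc' hd).1 g2⟩)
    rw [lor_bit, lor_bit] at x
    rcases x with x | x | x
    · obtain ⟨e, he, x⟩ := (i3 _ x).resolve_left (by simp)
      obtain ⟨d1, d2, d3, d4, d5, -⟩ := dv4 e
      have u2 := fun c hc => (ul c (i2 e he c hc)).1
      rw [Ew] at x
      rw [Vw] at u2
      split_ifs at x u2 with e1 e0 e3
      · refine ⟨_, _, _, ⟨e, he, by omega, rfl, rfl, rfl⟩, .inl ⟨by omega, ?_⟩⟩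
        obtain ⟨i, hi, x⟩ := cy_bit _ _ _ _ x
        have hj := (zj e he e1).1
        rw [d2]
        refine ⟨i, hi, x.imp (fun x => ?_) fun x => ?_⟩
        · exact lin x.symm (hc _ hj _ (Nat.mod_lt _ (by omega))) hd
        · exact (lin x.symm (hc _ hj _ hi) hd).symm
      · simp at x
      · refine ⟨_, _, _, ⟨e, he, e0, rfl, rfl, rfl⟩, .inr (.inr ⟨by omega, ?_⟩)⟩
        rw [d2, d3, d4]
        exact lin ((p2_bit _ _).1 x).symm
          (u2 _ ((lor_bit _ _ _).2 (.inr ((p2_bit _ _).2 rfl)))) hd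
      · refine ⟨_, _, _, ⟨e, he, e0, rfl, rfl, rfl⟩, .inr (.inl ⟨by omega, ?_⟩)⟩
        obtain ⟨i, hi, x1, x2, x3⟩ := xm_bit _ _ _ _ _ hb' x
        have := lin x3.symm (u2 _ ((xv_bit _ _ _ _ _ hb').2 ⟨i, hi, x1, x2, .inr rfl⟩)) hd
        rw [d2]
        exact ⟨i, hi, x1, x2, this.1.symm, this.2.symm⟩
    · exact absurd ((lb c hc').1 ((m1 _ _ _ sl (Nat.sub_lt (Nat.two_pow_pos n) one_pos) c d hd).1
        x).2.1) g3
    · exact absurd ((lb d hd).1 ((m1 _ _ _ on (lt2 _) c d hd).1 x).2.2) g4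
  · rintro _ _ _ ⟨e, he, y, rfl, rfl, rfl⟩ e1
    obtain ⟨d1, d2, -⟩ := dv4 e
    rw [d1] at e1
    obtain ⟨z1, z2, z3⟩ := zj e he e1
    simp only [← V, d2]
    rw [show Vw n tZ tG (a * 512 + b) e = cm tZ (wp e) from if_pos e1]
    refine ⟨z1, z2, z3, fun i hi => (ul _ (i2 e he _ ?_)).2,
      land0 ((i4 e he y).2.1.1 e1).1⟩
    rw [Vw, if_pos e1, cm_bit]
    exact ⟨i, hi, rfl⟩
  · rintro _ _ _ ⟨e, he, y, rfl, rfl, rfl⟩ e1
    obtain ⟨d1, d2, -⟩ := dv4 e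
    rw [d1] at e1
    obtain ⟨z1, z2, z3⟩ := (i4 e he y).2.1.2 e1
    simp only [← V, d2]
    rw [show Vw n tZ tG (a * 512 + b) e = xv n (a * 512 + b) (tG.get (wp e)) by
      rw [Vw, if_neg (by omega), if_neg y, if_neg (by omega)]]
    refine ⟨z1, fun x => land0 (z2 x), fun x => ?_⟩
    rcases z3 with z | z
    · ext y
      have := congrArg (·.testBit y = true) z
      simp only [lor_bit, p2_bit, eq_iff_iff] at this
      simp only [Finset.mem_insert, Finset.mem_singleton, ← this, or_assoc]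
    · have := land0 z _ x
      rw [(p2_bit _ _).2 rfl] at this
      exact absurd this (by simp)
  · rintro _ _ _ ⟨e, he, y, rfl, rfl, rfl⟩ c hc' ca cb hv
    have hu := i2 e he c ((V _ _).2 hv)
    by_cases r : R.testBit c = true
    · obtain ⟨e0, h0, x1, -, x3, i, x4⟩ := ((i6 c r).resolve_left (by simp)).resolve_left (by simp)
      refine .inr ⟨_, _, _, ⟨e0, h0, vw_ne x1, rfl, rfl, rfl⟩, (V _ _).1 x1, ?_,
        lk_hr hn x4 hab hb hc' ca cb⟩
      rintro _ _ _ ⟨e', he', -, rfl, rfl, rfl⟩ hv'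
      exact x3 e' he' ((V _ _).2 hv')
    · refine .inl fun d hd g => ?_
      have q : (Nat.mul (Nat.land (Nat.shiftRight (M a) b) (pones n))
          (Nat.land (Nat.xor U R) (2 ^ n - 1))).testBit (n * d + c) = true :=
        (m1 _ _ _ sl (lt2 _) d c hc').2 ⟨hd, (lb d hd).2 g, (land_bit _ _ _).2
          ⟨(xor_bit _ _ _).2 fun x => r (x.1 hu), by simpa using hc'⟩⟩
      have q2 : ¬ (Nat.lor (M a) (M b)).testBit (n * d + c) = true := fun x => by
        rw [land0 f6 _ x] at q; exact absurd q (by simp)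
      rw [lor_bit, not_or] at q2
      rw [Finset.pair_comm c d, mem_Gd hs ha hd hc', mem_Gd hs hb hd hc']
      exact q2
  · intro v hv h4
    obtain ⟨w, hw, rfl⟩ := sd_wd hsd hv h4
    exact ⟨_, _, w, hw, (dv4 w).1 ▸ h4, rfl, rfl, rfl⟩

/-- Checker P is sound. -/
theorem pok {tM : BT} (hp : PASM_s) (hm : MAT_s) (hd : DimP n) (hn : n ≤ 512) (hs : SymM n tM.get)
    {root : ℕ} {par : ℕ → ℕ} {Sig : Finset (Finset ℕ)} {u τ1 τ2 : Finset ℕ}
    {h1 h2 : Finset (Finset ℕ)} (hB : Base (sysN n hd) (Gd n tM.get) Sig u τ1 τ2 h1 h2)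
    (hZ : (mkZ n J tZ tF SK).OK n root par (Gd n tM.get))
    (hL : ∀ f ∈ Sig, (mkZ n J tZ tF SK).lab f = 0)
    (hut : utOK n = true) (hrm : rmOK J tZ tR = true) (hT : TG T 0 n) (hM : mOK n M tM = true)
    {k : ℕ} (hk : k + 1 = n) (hR : RA n J NX tZ tR tG M T SM SD 0 k) :
    POK n hd (Gd n tM.get) (mkZ n J tZ tF SK) tG NX SM SD := by
  refine hp _ n hd root par _ Sig u τ1 τ2 h1 h2 hB hZ hL tG NX SM SD (HRt n T) (hr_uniq hT)
    fun a b hab hb => ?_
  obtain ⟨D, h⟩ := hR a (Nat.zero_le _) (by omega) b hab hb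
  refine pairS_of (D := D) hm hn hs hZ.cn hut hrm hab hb ?_
  rw [pair, beq_t.1 (al_iff.1 hM a (by omega)), beq_t.1 (al_iff.1 hM b hb)] at h
  exact h

end Pair

end Pool.Agent.MP_797bdc_co.Lk.P
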